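import Pool.Agent.K1H54.LO.Defs

/-!
The kernel of the cascade satisfies the hypotheses of the well-posedness theorem (`S_ADM`).
-/

open Set Topology MeasureTheory
open Filter hiding ker

set_option autoImplicit false

namespace Pool.Agent.K1H21.LO

open Pool.Agent.Y5 Pool.Agent.Y5.D Pool.Agent.Y5.E Pool.Agent.K1H54.LO

section
variable {I : Type} {sh : I → ℕ} {ty : I → Bool} {m : ℕ → ℕ}

/-- the modes of the shell `n` and the type `b` -/
noncomputable def SF (h : Shl sh ty m) (b : Bool) (n : ℕ) : Finset I := (h.fin n b).toFinset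

lemma mem_SF (h : Shl sh ty m) (b : Bool) (n : ℕ) (i : I) :
    i ∈ SF h b n ↔ sh i = n ∧ ty i = b := by
  unfold SF; simp

lemma card_SF (h : Shl sh ty m) (b : Bool) (n : ℕ) : (SF h b n).card = m n := by
  unfold SF; rw [← h.card n b, Set.ncard_eq_toFinset_card _ (h.fin n b)]

lemma shfin (h : Shl sh ty m) (n : ℕ) : {i | sh i = n}.Finite := by
  refine ((h.fin n true).union (h.fin n false)).subset ?_
  intro i hi
  rcases hb : ty i with _ | _
  · right; exact ⟨hi, hb⟩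
  · left; exact ⟨hi, hb⟩

/-- the modes of the shell `n` -/
noncomputable def SS (h : Shl sh ty m) (n : ℕ) : Finset I := (shfin h n).toFinset

lemma mem_SS (h : Shl sh ty m) (n : ℕ) (i : I) : i ∈ SS h n ↔ sh i = n := by
  unfold SS; simp

lemma sum_SS (h : Shl sh ty m) (n : ℕ) (f : I → ℝ) :
    ∑ i ∈ SS h n, f i = ∑ i ∈ SF h true n, f i + ∑ i ∈ SF h false n, f i := by
  classical
  have hd : Disjoint (SF h true n) (SF h false n) := by
    rw [Finset.disjoint_left]
    intro i hi hi'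
    rw [mem_SF] at hi hi'
    rw [hi.2] at hi'
    exact absurd hi'.2 (by decide)
  rw [← Finset.sum_union hd]
  apply Finset.sum_congr _ (fun _ _ => rfl)
  ext i
  rw [Finset.mem_union, mem_SF, mem_SF, mem_SS]
  rcases hb : ty i with _ | _ <;> simp

lemma mpos (h : Shl sh ty m) (n : ℕ) : (0 : ℝ) < m n := by exact_mod_cast h.pos n

lemma sqm (h : Shl sh ty m) (n : ℕ) : 0 < √(m n : ℝ) := Real.sqrt_pos.2 (mpos h n)

lemma inv_sqm (h : Shl sh ty m) (n : ℕ) : ((√(m n : ℝ))⁻¹) ^ 2 * m n = 1 := by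
  have := mpos h n
  rw [inv_pow, Real.sq_sqrt this.le, inv_mul_cancel₀ this.ne']

lemma fv_zero (h : Shl sh ty m) (b : Bool) (n : ℕ) (i : I) (hi : i ∉ SF h b n) :
    fv sh ty m b n i = 0 := by
  rw [mem_SF] at hi
  unfold fv; rw [if_neg hi]

lemma fv_mem (h : Shl sh ty m) (b : Bool) (n : ℕ) (i : I) (hi : i ∈ SF h b n) :
    fv sh ty m b n i = (√(m n : ℝ))⁻¹ := by
  rw [mem_SF] at hi
  unfold fv; rw [if_pos hi]

lemma am_sum (h : Shl sh ty m) (b : Bool) (n : ℕ) (z : I → ℝ) :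
    am sh ty m b n z = ∑ i ∈ SF h b n, fv sh ty m b n i * z i := by
  unfold am
  apply tsum_eq_sum
  intro i hi
  rw [fv_zero h b n i hi, zero_mul]

lemma am_eq (h : Shl sh ty m) (b : Bool) (n : ℕ) (z : I → ℝ) :
    am sh ty m b n z = (√(m n : ℝ))⁻¹ * ∑ i ∈ SF h b n, z i := by
  rw [am_sum h, Finset.mul_sum]
  exact Finset.sum_congr rfl fun i hi => by rw [fv_mem h b n i hi]

lemma am_sq (h : Shl sh ty m) (b : Bool) (n : ℕ) (z : I → ℝ) :
    am sh ty m b n z ^ 2 ≤ ∑ i ∈ SF h b n, z i ^ 2 := by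
  rw [am_eq h, mul_pow]
  have h1 := sq_sum_le_card_mul_sum_sq (s := SF h b n) (f := z)
  rw [card_SF] at h1
  have h2 := inv_sqm h n
  calc (√(m n : ℝ))⁻¹ ^ 2 * (∑ i ∈ SF h b n, z i) ^ 2
      ≤ (√(m n : ℝ))⁻¹ ^ 2 * (m n * ∑ i ∈ SF h b n, z i ^ 2) :=
        mul_le_mul_of_nonneg_left h1 (sq_nonneg _)
    _ = ((√(m n : ℝ))⁻¹ ^ 2 * m n) * ∑ i ∈ SF h b n, z i ^ 2 := by ring
    _ = _ := by rw [h2, one_mul]

/-- the energy in the shell `n` -/
noncomputable def sg (h : Shl sh ty m) (n : ℕ) (z : I → ℝ) : ℝ := ∑ i ∈ SS h n, z i ^ 2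

lemma sg_nonneg (h : Shl sh ty m) (n : ℕ) (z : I → ℝ) : 0 ≤ sg h n z :=
  Finset.sum_nonneg fun _ _ => sq_nonneg _

lemma am_sq2 (h : Shl sh ty m) (n : ℕ) (z : I → ℝ) :
    am sh ty m true n z ^ 2 + am sh ty m false n z ^ 2 ≤ sg h n z := by
  unfold sg; rw [sum_SS]
  exact add_le_add (am_sq h true n z) (am_sq h false n z)

lemma am_le (h : Shl sh ty m) (b : Bool) (n : ℕ) (z : I → ℝ) :
    |am sh ty m b n z| ≤ √(sg h n z) := by
  apply Real.abs_le_sqrt
  have h1 := am_sq2 h n z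
  cases b
  · nlinarith [sq_nonneg (am sh ty m true n z)]
  · nlinarith [sq_nonneg (am sh ty m false n z)]

/-! ### The bilinear term -/

lemma hs_fv (h : Shl sh ty m) (b b' : Bool) (n n' : ℕ) (z y : I → ℝ) :
    HasSum (fun p : I × I => fv sh ty m b n p.1 * fv sh ty m b' n' p.2 * z p.1 * y p.2)
      (am sh ty m b n z * am sh ty m b' n' y) := by
  rw [am_sum h, am_sum h, Finset.sum_mul_sum, ← Finset.sum_product']
  have e : ∑ x ∈ SF h b n ×ˢ SF h b' n', fv sh ty m b n x.1 * z x.1 * (fv sh ty m b' n' x.2 * y x.2)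
      = ∑ x ∈ SF h b n ×ˢ SF h b' n',
        fv sh ty m b n x.1 * fv sh ty m b' n' x.2 * z x.1 * y x.2 :=
    Finset.sum_congr rfl fun x _ => by ring
  rw [e]
  apply hasSum_sum_of_ne_finset_zero
  intro p hp
  rw [Finset.mem_product, not_and_or] at hp
  rcases hp with hp | hp
  · rw [fv_zero h b n _ hp]; ring
  · rw [fv_zero h b' n' _ hp]; ring

variable (sh ty m) in
/-- the values of the bilinear term, without the factor `(m n)^(-1/2)` -/
noncomputable def bb (lam ε c₀ : ℝ) (b : Bool) (n : ℕ) (z y : I → ℝ) : ℝ :=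
  if b = true then
    (if n = 0 then 0 else c₀ * lam ^ (n - 1) *
      (am sh ty m false (n - 1) z * am sh ty m false (n - 1) y))
    - c₀ * lam ^ n * (am sh ty m false n z * am sh ty m false n y)
    - ε * (c₀ * lam ^ n) * (am sh ty m true n z * am sh ty m false n y)
  else c₀ * lam ^ n * (am sh ty m false n z * (am sh ty m true n y - am sh ty m true (n + 1) y))
    + ε * (c₀ * lam ^ n) * (am sh ty m true n z * am sh ty m true n y)

lemma hs_ker (h : Shl sh ty m) (lam ε c₀ : ℝ) (i : I) (z y : I → ℝ) :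
    HasSum (fun p : I × I => ker sh ty m lam ε c₀ i p.1 p.2 * z p.1 * y p.2)
      ((√(m (sh i) : ℝ))⁻¹ * bb sh ty m lam ε c₀ (ty i) (sh i) z y) := by
  rcases hb : ty i with _ | _
  · have h1 := hs_fv h false true (sh i) (sh i) z y
    have h2 := hs_fv h false true (sh i) (sh i + 1) z y
    have h3 := hs_fv h true true (sh i) (sh i) z y
    have h4 := (((h1.sub h2).mul_left (c₀ * lam ^ sh i)).add
      (h3.mul_left (ε * (c₀ * lam ^ sh i)))).mul_left ((√(m (sh i) : ℝ))⁻¹)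
    have e1 : (fun p : I × I => ker sh ty m lam ε c₀ i p.1 p.2 * z p.1 * y p.2) =
        fun p : I × I => (√(m (sh i) : ℝ))⁻¹ * (c₀ * lam ^ sh i *
          (fv sh ty m false (sh i) p.1 * fv sh ty m true (sh i) p.2 * z p.1 * y p.2 -
          fv sh ty m false (sh i) p.1 * fv sh ty m true (sh i + 1) p.2 * z p.1 * y p.2) +
          ε * (c₀ * lam ^ sh i) *
          (fv sh ty m true (sh i) p.1 * fv sh ty m true (sh i) p.2 * z p.1 * y p.2)) := by
      funext p
      unfold ker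
      rw [hb]
      simp only [Bool.false_eq_true, if_false]
      ring
    have e2 : (√(m (sh i) : ℝ))⁻¹ * bb sh ty m lam ε c₀ false (sh i) z y =
        (√(m (sh i) : ℝ))⁻¹ * (c₀ * lam ^ sh i *
          (am sh ty m false (sh i) z * am sh ty m true (sh i) y -
            am sh ty m false (sh i) z * am sh ty m true (sh i + 1) y) +
          ε * (c₀ * lam ^ sh i) * (am sh ty m true (sh i) z * am sh ty m true (sh i) y)) := by
      unfold bb
      simp only [Bool.false_eq_true, if_false]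
      ring
    rw [e1, e2]
    exact h4
  · have h1 := hs_fv h false false (sh i - 1) (sh i - 1) z y
    have h2 := hs_fv h false false (sh i) (sh i) z y
    have h3 := hs_fv h true false (sh i) (sh i) z y
    have h4 := ((((h1.mul_left (if sh i = 0 then 0 else c₀ * lam ^ (sh i - 1))).sub
      (h2.mul_left (c₀ * lam ^ sh i))).sub
      (h3.mul_left (ε * (c₀ * lam ^ sh i)))).mul_left ((√(m (sh i) : ℝ))⁻¹))
    have e1 : (fun p : I × I => ker sh ty m lam ε c₀ i p.1 p.2 * z p.1 * y p.2) =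
        fun p : I × I => (√(m (sh i) : ℝ))⁻¹ *
          ((if sh i = 0 then 0 else c₀ * lam ^ (sh i - 1)) *
          (fv sh ty m false (sh i - 1) p.1 * fv sh ty m false (sh i - 1) p.2 * z p.1 * y p.2) -
          c₀ * lam ^ sh i *
          (fv sh ty m false (sh i) p.1 * fv sh ty m false (sh i) p.2 * z p.1 * y p.2) -
          ε * (c₀ * lam ^ sh i) *
          (fv sh ty m true (sh i) p.1 * fv sh ty m false (sh i) p.2 * z p.1 * y p.2)) := by
      funext p
      unfold ker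
      rw [hb]
      simp only [if_true]
      split_ifs <;> ring
    have e2 : (√(m (sh i) : ℝ))⁻¹ * bb sh ty m lam ε c₀ true (sh i) z y =
        (√(m (sh i) : ℝ))⁻¹ * ((if sh i = 0 then 0 else c₀ * lam ^ (sh i - 1)) *
          (am sh ty m false (sh i - 1) z * am sh ty m false (sh i - 1) y) -
          c₀ * lam ^ sh i * (am sh ty m false (sh i) z * am sh ty m false (sh i) y) -
          ε * (c₀ * lam ^ sh i) * (am sh ty m true (sh i) z * am sh ty m false (sh i) y)) := by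
      unfold bb
      simp only [if_true]
      split_ifs <;> ring
    rw [e1, e2]
    exact h4

lemma bl_ker (h : Shl sh ty m) (lam ε c₀ : ℝ) (i : I) (z y : I → ℝ) :
    bl (ker sh ty m lam ε c₀) z y i =
      (√(m (sh i) : ℝ))⁻¹ * bb sh ty m lam ε c₀ (ty i) (sh i) z y :=
  (hs_ker h lam ε c₀ i z y).tsum_eq

lemma bb_le {lam ε c₀ : ℝ} (hlam : 1 < lam) (hc : 0 < c₀) (hε : 0 ≤ ε) (hε1 : ε ≤ 1) (b : Bool)
    (n : ℕ) (z y : I → ℝ) {P P' W : ℝ} (hP : ∀ b, |am sh ty m b n z| ≤ P)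
    (hP' : n ≠ 0 → ∀ b, |am sh ty m b (n - 1) z| ≤ P') (hP0 : 0 ≤ P')
    (hW : ∀ b, c₀ * lam ^ n * |am sh ty m b n y| ≤ W)
    (hW1 : ∀ b, c₀ * lam ^ n * |am sh ty m b (n + 1) y| ≤ W)
    (hW' : n ≠ 0 → ∀ b, c₀ * lam ^ (n - 1) * |am sh ty m b (n - 1) y| ≤ W) :
    |bb sh ty m lam ε c₀ b n z y| ≤ 3 * W * (P' + P) := by
  have hcl : 0 < c₀ * lam ^ n := mul_pos hc (pow_pos (by linarith) _)
  have hP00 : 0 ≤ P := (abs_nonneg _).trans (hP true)
  have hW00 : 0 ≤ W := (mul_nonneg hcl.le (abs_nonneg _)).trans (hW true)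
  have key : ∀ b b', |c₀ * lam ^ n * (am sh ty m b n z * am sh ty m b' n y)| ≤ W * P := by
    intro b b'
    rw [abs_mul, abs_of_pos hcl, abs_mul]
    calc c₀ * lam ^ n * (|am sh ty m b n z| * |am sh ty m b' n y|)
        = (c₀ * lam ^ n * |am sh ty m b' n y|) * |am sh ty m b n z| := by ring
      _ ≤ W * P := mul_le_mul (hW b') (hP b) (abs_nonneg _) hW00
  have key1 : ∀ b b', |c₀ * lam ^ n * (am sh ty m b n z * am sh ty m b' (n + 1) y)| ≤ W * P := by
    intro b b'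
    rw [abs_mul, abs_of_pos hcl, abs_mul]
    calc c₀ * lam ^ n * (|am sh ty m b n z| * |am sh ty m b' (n + 1) y|)
        = (c₀ * lam ^ n * |am sh ty m b' (n + 1) y|) * |am sh ty m b n z| := by ring
      _ ≤ W * P := mul_le_mul (hW1 b') (hP b) (abs_nonneg _) hW00
  have keyε : ∀ b b', |ε * (c₀ * lam ^ n) * (am sh ty m b n z * am sh ty m b' n y)| ≤ W * P := by
    intro b b'
    rw [mul_assoc, abs_mul, abs_of_nonneg hε]
    calc ε * |c₀ * lam ^ n * (am sh ty m b n z * am sh ty m b' n y)|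
        ≤ 1 * (W * P) := mul_le_mul hε1 (key b b') (abs_nonneg _) zero_le_one
      _ = _ := one_mul _
  have hWP : 0 ≤ W * P := mul_nonneg hW00 hP00
  have hWP' : 0 ≤ W * P' := mul_nonneg hW00 hP0
  cases b
  · unfold bb
    simp only [Bool.false_eq_true, if_false]
    have e : c₀ * lam ^ n * (am sh ty m false n z * (am sh ty m true n y - am sh ty m true (n + 1) y))
        + ε * (c₀ * lam ^ n) * (am sh ty m true n z * am sh ty m true n y) =
        c₀ * lam ^ n * (am sh ty m false n z * am sh ty m true n y)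
        - c₀ * lam ^ n * (am sh ty m false n z * am sh ty m true (n + 1) y)
        + ε * (c₀ * lam ^ n) * (am sh ty m true n z * am sh ty m true n y) := by ring
    rw [e]
    have h1 := key false true
    have h2 := key1 false true
    have h3 := keyε true true
    rw [abs_le] at h1 h2 h3 ⊢
    constructor <;> nlinarith
  · unfold bb
    simp only [if_true]
    have h0 : |if n = 0 then 0 else c₀ * lam ^ (n - 1) *
      (am sh ty m false (n - 1) z * am sh ty m false (n - 1) y)| ≤ W * P' := by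
      split_ifs with hn
      · rw [abs_zero]; exact hWP'
      · have hcl' : 0 < c₀ * lam ^ (n - 1) := mul_pos hc (pow_pos (by linarith) _)
        rw [abs_mul, abs_of_pos hcl', abs_mul]
        calc c₀ * lam ^ (n - 1) * (|am sh ty m false (n - 1) z| * |am sh ty m false (n - 1) y|)
            = (c₀ * lam ^ (n - 1) * |am sh ty m false (n - 1) y|) *
              |am sh ty m false (n - 1) z| := by ring
          _ ≤ W * P' := mul_le_mul (hW' hn false) (hP' hn false) (abs_nonneg _) hW00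
    have h1 := key false false
    have h3 := keyε true false
    rw [abs_le] at h0 h1 h3 ⊢
    constructor <;> nlinarith

/-! ### Weighted norms -/

lemma nk_ge {r : I → ℝ} {k : ℕ} {z : I → ℝ} (hz : Sk r k z) (u : Finset I) :
    ∑ i ∈ u, (r i ^ k * z i) ^ 2 ≤ nk r k z :=
  hz.sum_le_tsum u fun _ _ => sq_nonneg _

lemma nk0 (r : I → ℝ) (k : ℕ) (z : I → ℝ) : 0 ≤ nk r k z := tsum_nonneg fun _ => sq_nonneg _

/-- the modes of the shells `< N` -/
noncomputable def UU (h : Shl sh ty m) (N : ℕ) : Finset I := by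
  classical exact (Finset.range N).biUnion (SS h)

lemma sum_UU (h : Shl sh ty m) (N : ℕ) (f : I → ℝ) :
    ∑ i ∈ UU h N, f i = ∑ n ∈ Finset.range N, ∑ i ∈ SS h n, f i := by
  classical
  unfold UU
  rw [Finset.sum_biUnion]
  intro n _ n' _ hnn'
  rw [Function.onFun, Finset.disjoint_left]
  intro i hi hi'
  rw [mem_SS] at hi hi'
  exact hnn' (hi.symm.trans hi')

lemma sub_UU (h : Shl sh ty m) (u : Finset I) : ∃ N, u ⊆ UU h N := by
  classical
  refine ⟨u.sup sh + 1, fun i hi => ?_⟩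
  unfold UU
  rw [Finset.mem_biUnion]
  exact ⟨sh i, Finset.mem_range.2 (Nat.lt_succ_of_le (Finset.le_sup hi)), (mem_SS h _ _).2 rfl⟩

lemma shell_sum (h : Shl sh ty m) {lam : ℝ} (n k : ℕ) (z : I → ℝ) :
    ∑ i ∈ SS h n, ((lam ^ sh i) ^ k * z i) ^ 2 = ((lam ^ n) ^ k) ^ 2 * sg h n z := by
  unfold sg
  rw [Finset.mul_sum]
  refine Finset.sum_congr rfl fun i hi => ?_
  rw [(mem_SS h n i).1 hi]
  ring

lemma shells_le (h : Shl sh ty m) {lam : ℝ} {k : ℕ} {z : I → ℝ}
    (hz : Sk (fun i => lam ^ sh i) k z) (N : ℕ) :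
    ∑ n ∈ Finset.range N, ((lam ^ n) ^ k) ^ 2 * sg h n z ≤ nk (fun i => lam ^ sh i) k z := by
  have h1 := nk_ge hz (UU h N)
  rw [sum_UU] at h1
  refine le_trans (le_of_eq ?_) h1
  exact Finset.sum_congr rfl fun n _ => (shell_sum h n k z).symm

lemma shell_le (h : Shl sh ty m) {lam : ℝ} {k : ℕ} {z : I → ℝ}
    (hz : Sk (fun i => lam ^ sh i) k z) (n : ℕ) :
    ((lam ^ n) ^ k) ^ 2 * sg h n z ≤ nk (fun i => lam ^ sh i) k z := by
  have h1 := nk_ge hz (SS h n)
  rwa [shell_sum] at h1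

lemma Sk_mono {lam : ℝ} (hlam : 1 < lam) {k l : ℕ} (hkl : k ≤ l) {z : I → ℝ}
    (hz : Sk (fun i => lam ^ sh i) l z) : Sk (fun i => lam ^ sh i) k z := by
  refine Summable.of_nonneg_of_le (fun i => sq_nonneg _) (fun i => ?_) hz
  have h1 : 1 ≤ lam ^ sh i := one_le_pow₀ hlam.le
  have h2 : (lam ^ sh i) ^ k ≤ (lam ^ sh i) ^ l := pow_le_pow_right₀ h1 hkl
  have h3 : 0 ≤ (lam ^ sh i) ^ k := by positivity
  rw [mul_pow, mul_pow]
  exact mul_le_mul_of_nonneg_right (pow_le_pow_left₀ h3 h2 2) (sq_nonneg _)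

lemma nk_mono {lam : ℝ} (hlam : 1 < lam) {k l : ℕ} (hkl : k ≤ l) {z : I → ℝ}
    (hz : Sk (fun i => lam ^ sh i) l z) :
    nk (fun i => lam ^ sh i) k z ≤ nk (fun i => lam ^ sh i) l z := by
  refine (Sk_mono hlam hkl hz).tsum_le_tsum (fun i => ?_) hz
  have h1 : 1 ≤ lam ^ sh i := one_le_pow₀ hlam.le
  have h2 : (lam ^ sh i) ^ k ≤ (lam ^ sh i) ^ l := pow_le_pow_right₀ h1 hkl
  have h3 : 0 ≤ (lam ^ sh i) ^ k := by positivity
  rw [mul_pow, mul_pow]
  exact mul_le_mul_of_nonneg_right (pow_le_pow_left₀ h3 h2 2) (sq_nonneg _)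

lemma am_nk (h : Shl sh ty m) {lam : ℝ} (hlam : 1 < lam) {z : I → ℝ}
    (hz : Sk (fun i => lam ^ sh i) 1 z) (b : Bool) (n : ℕ) :
    lam ^ n * |am sh ty m b n z| ≤ √(nk (fun i => lam ^ sh i) 1 z) := by
  have h1 := shell_le h hz n
  rw [pow_one] at h1
  have hl : 0 ≤ lam ^ n := by positivity
  calc lam ^ n * |am sh ty m b n z| ≤ lam ^ n * √(sg h n z) :=
        mul_le_mul_of_nonneg_left (am_le h b n z) hl
    _ = √((lam ^ n) ^ 2 * sg h n z) := by
        rw [Real.sqrt_mul (sq_nonneg _), Real.sqrt_sq hl]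
    _ ≤ _ := Real.sqrt_le_sqrt h1

lemma am_l2 (h : Shl sh ty m) {z : I → ℝ} (hz : Summable fun i => z i ^ 2) (b : Bool) (n : ℕ) :
    |am sh ty m b n z| ≤ √(∑' a, z a ^ 2) := by
  refine (am_le h b n z).trans (Real.sqrt_le_sqrt ?_)
  exact hz.sum_le_tsum _ fun _ _ => sq_nonneg _

lemma Sk_l2 {lam : ℝ} (hlam : 1 < lam) {z : I → ℝ} (hz : Sk (fun i => lam ^ sh i) 1 z) :
    Summable fun i => z i ^ 2 := by
  have h1 := Sk_mono hlam (Nat.zero_le 1) hz
  unfold Sk at h1
  simpa using h1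

/-- the bilinear term is bounded by the weighted norm of `y` -/
lemma bb_nk (h : Shl sh ty m) {lam ε c₀ : ℝ} (hlam : 1 < lam) (hc : 0 < c₀) (hε : 0 ≤ ε)
    (hε1 : ε ≤ 1) (b : Bool) (n : ℕ) (z y : I → ℝ) (hy : Sk (fun i => lam ^ sh i) 1 y) :
    |bb sh ty m lam ε c₀ b n z y| ≤ 3 * (c₀ * √(nk (fun i => lam ^ sh i) 1 y)) *
      ((if n = 0 then 0 else √(sg h (n - 1) z)) + √(sg h n z)) := by
  have hB := Real.sqrt_nonneg (nk (fun i => lam ^ sh i) 1 y)
  have hl1 : 1 ≤ lam ^ n := one_le_pow₀ hlam.le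
  refine bb_le hlam hc hε hε1 b n z y (fun b => am_le h b n z) ?_ ?_ ?_ ?_ ?_
  · intro hn b
    rw [if_neg hn]
    exact am_le h b _ z
  · split_ifs
    · exact le_rfl
    · exact Real.sqrt_nonneg _
  · intro b
    rw [mul_assoc]
    exact mul_le_mul_of_nonneg_left (am_nk h hlam hy b n) hc.le
  · intro b
    rw [mul_assoc]
    refine mul_le_mul_of_nonneg_left (le_trans ?_ (am_nk h hlam hy b (n + 1))) hc.le
    refine mul_le_mul_of_nonneg_right ?_ (abs_nonneg _)
    exact pow_le_pow_right₀ hlam.le (Nat.le_succ n)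
  · intro _ b
    rw [mul_assoc]
    exact mul_le_mul_of_nonneg_left (am_nk h hlam hy b (n - 1)) hc.le

lemma sum_if_shift (u : ℕ → ℝ) (hu : ∀ n, 0 ≤ u n) (N : ℕ) :
    ∑ n ∈ Finset.range N, (if n = 0 then 0 else u (n - 1)) ≤ ∑ n ∈ Finset.range N, u n := by
  cases N with
  | zero => simp
  | succ N =>
    rw [Finset.sum_range_succ']
    simp only [Nat.add_eq_zero_iff, one_ne_zero, and_false, if_false, Nat.add_sub_cancel, if_true,
      add_zero]
    exact Finset.sum_le_sum_of_subset_of_nonneg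
      (Finset.range_subset_range.2 (Nat.le_succ N)) fun i _ _ => hu i

lemma est_fin (h : Shl sh ty m) {lam ε c₀ : ℝ} (hlam : 1 < lam) (hc : 0 < c₀) (hε : 0 ≤ ε)
    (hε1 : ε ≤ 1) (k : ℕ) (z y : I → ℝ) (hz : Sk (fun i => lam ^ sh i) (k + 1) z)
    (hy : Sk (fun i => lam ^ sh i) (k + 1) y) (u : Finset I) :
    ∑ i ∈ u, ((lam ^ sh i) ^ (k + 1) * bl (ker sh ty m lam ε c₀) z y i) ^ 2 ≤
      72 * c₀ ^ 2 * (lam ^ (k + 1)) ^ 2 *
        (nk (fun i => lam ^ sh i) (k + 1) z * nk (fun i => lam ^ sh i) 1 y) := by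
  have hy1 : Sk (fun i => lam ^ sh i) 1 y := Sk_mono hlam (by omega) hy
  have hA := nk0 (fun i => lam ^ sh i) (k + 1) z
  have hB := nk0 (fun i => lam ^ sh i) 1 y
  set A := nk (fun i => lam ^ sh i) (k + 1) z with hAdef
  set B := nk (fun i => lam ^ sh i) 1 y with hBdef
  obtain ⟨N, hN⟩ := sub_UU h u
  refine (Finset.sum_le_sum_of_subset_of_nonneg hN fun i _ _ => sq_nonneg _).trans ?_
  rw [sum_UU]
  -- one shell
  have hshell : ∀ n, ∑ i ∈ SS h n, ((lam ^ sh i) ^ (k + 1) * bl (ker sh ty m lam ε c₀) z y i) ^ 2 ≤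
      36 * c₀ ^ 2 * (lam ^ (k + 1)) ^ 2 * B *
        ((if n = 0 then 0 else ((lam ^ (n - 1)) ^ (k + 1)) ^ 2 * sg h (n - 1) z) +
          ((lam ^ n) ^ (k + 1)) ^ 2 * sg h n z) := by
    intro n
    have hone : ∀ b, ∑ i ∈ SF h b n, ((lam ^ sh i) ^ (k + 1) *
        bl (ker sh ty m lam ε c₀) z y i) ^ 2 =
        ((lam ^ n) ^ (k + 1) * bb sh ty m lam ε c₀ b n z y) ^ 2 := by
      intro b
      have h1 : ∀ i ∈ SF h b n, ((lam ^ sh i) ^ (k + 1) *
          bl (ker sh ty m lam ε c₀) z y i) ^ 2 = (√(m n : ℝ))⁻¹ ^ 2 *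
          ((lam ^ n) ^ (k + 1) * bb sh ty m lam ε c₀ b n z y) ^ 2 := by
        intro i hi
        rw [mem_SF] at hi
        rw [bl_ker h, hi.1, hi.2]
        ring
      rw [Finset.sum_congr rfl h1, Finset.sum_const, card_SF, nsmul_eq_mul, ← mul_assoc,
        mul_comm (m n : ℝ), inv_sqm h n, one_mul]
    rw [sum_SS, hone, hone]
    have hbb := fun b => bb_nk h hlam hc hε hε1 b n z y hy1
    have hsn := sg_nonneg h n z
    have hsn' := sg_nonneg h (n - 1) z
    have hln : 0 ≤ (lam ^ n) ^ (k + 1) := by positivity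
    have hl1 : 1 ≤ lam ^ (k + 1) := one_le_pow₀ hlam.le
    have hstep : ∀ b, ((lam ^ n) ^ (k + 1) * bb sh ty m lam ε c₀ b n z y) ^ 2 ≤
        18 * c₀ ^ 2 * (lam ^ (k + 1)) ^ 2 * B *
        ((if n = 0 then 0 else ((lam ^ (n - 1)) ^ (k + 1)) ^ 2 * sg h (n - 1) z) +
          ((lam ^ n) ^ (k + 1)) ^ 2 * sg h n z) := by
      intro b
      have h1 : bb sh ty m lam ε c₀ b n z y ^ 2 ≤ (3 * (c₀ * √B) *
          ((if n = 0 then 0 else √(sg h (n - 1) z)) + √(sg h n z))) ^ 2 :=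
        sq_le_sq' (abs_le.1 (hbb b)).1 (abs_le.1 (hbb b)).2
      have h2 : (3 * (c₀ * √B) *
          ((if n = 0 then 0 else √(sg h (n - 1) z)) + √(sg h n z))) ^ 2 ≤
          18 * c₀ ^ 2 * B * ((if n = 0 then 0 else sg h (n - 1) z) + sg h n z) := by
        have h3 : ((if n = 0 then 0 else √(sg h (n - 1) z)) + √(sg h n z)) ^ 2 ≤
            2 * ((if n = 0 then 0 else sg h (n - 1) z) + sg h n z) := by
          refine (add_sq_le).trans (le_of_eq ?_)
          rw [Real.sq_sqrt hsn]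
          split_ifs
          · ring
          · rw [Real.sq_sqrt hsn']
        calc _ = 9 * c₀ ^ 2 * (√B) ^ 2 *
              ((if n = 0 then 0 else √(sg h (n - 1) z)) + √(sg h n z)) ^ 2 := by ring
          _ ≤ 9 * c₀ ^ 2 * (√B) ^ 2 *
              (2 * ((if n = 0 then 0 else sg h (n - 1) z) + sg h n z)) :=
            mul_le_mul_of_nonneg_left h3 (by positivity)
          _ = _ := by rw [Real.sq_sqrt hB]; ring
      rw [mul_pow]
      calc ((lam ^ n) ^ (k + 1)) ^ 2 * bb sh ty m lam ε c₀ b n z y ^ 2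
          ≤ ((lam ^ n) ^ (k + 1)) ^ 2 *
            (18 * c₀ ^ 2 * B * ((if n = 0 then 0 else sg h (n - 1) z) + sg h n z)) :=
            mul_le_mul_of_nonneg_left (h1.trans h2) (sq_nonneg _)
        _ = 18 * c₀ ^ 2 * B * ((if n = 0 then 0 else ((lam ^ n) ^ (k + 1)) ^ 2 *
              sg h (n - 1) z) + ((lam ^ n) ^ (k + 1)) ^ 2 * sg h n z) := by
            split_ifs <;> ring
        _ ≤ 18 * c₀ ^ 2 * B * ((lam ^ (k + 1)) ^ 2 *
            ((if n = 0 then 0 else ((lam ^ (n - 1)) ^ (k + 1)) ^ 2 * sg h (n - 1) z) +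
          ((lam ^ n) ^ (k + 1)) ^ 2 * sg h n z)) := by
            refine mul_le_mul_of_nonneg_left ?_ (by positivity)
            rw [mul_add]
            refine add_le_add ?_ ?_
            · split_ifs with hn
              · simp
              · obtain ⟨n', rfl⟩ := Nat.exists_eq_succ_of_ne_zero hn
                rw [Nat.succ_sub_one, ← mul_assoc]
                refine le_of_eq ?_
                rw [Nat.succ_eq_add_one, pow_succ lam n']
                ring
            · exact le_mul_of_one_le_left (mul_nonneg (sq_nonneg _) hsn) (one_le_pow₀ hl1)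
        _ = _ := by ring
    refine (add_le_add (hstep true) (hstep false)).trans (le_of_eq ?_)
    ring
  refine (Finset.sum_le_sum fun n _ => hshell n).trans ?_
  rw [← Finset.mul_sum, Finset.sum_add_distrib]
  have h1 := sum_if_shift (fun n => ((lam ^ n) ^ (k + 1)) ^ 2 * sg h n z)
    (fun n => mul_nonneg (sq_nonneg _) (sg_nonneg h n z)) N
  have h2 := shells_le h hz N
  have h3 : 0 ≤ 36 * c₀ ^ 2 * (lam ^ (k + 1)) ^ 2 * B := by positivity
  calc _ ≤ 36 * c₀ ^ 2 * (lam ^ (k + 1)) ^ 2 * B * (A + A) :=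
        mul_le_mul_of_nonneg_left (add_le_add (h1.trans h2) h2) h3
    _ = _ := by ring

theorem adm (h : Shl sh ty m) {di : I → ℝ} (hd : ∀ i, 0 ≤ di i) {lam ε c₀ : ℝ} (hlam : 1 < lam)
    (hc : 0 < c₀) (hε : 0 ≤ ε) (hε1 : ε ≤ 1) :
    Adm di (fun i => lam ^ sh i) (ker sh ty m lam ε c₀) where
  d0 := hd
  r1 := fun i => one_le_pow₀ hlam.le
  rfin := by
    intro R
    obtain ⟨N, hN⟩ := pow_unbounded_of_one_lt R hlam
    refine (UU h N).finite_toSet.subset ?_
    intro i hi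
    have h1 : lam ^ sh i < lam ^ N := lt_of_le_of_lt hi hN
    have h2 : sh i < N := (pow_lt_pow_iff_right₀ hlam).1 h1
    classical
    rw [Finset.mem_coe]
    unfold UU
    rw [Finset.mem_biUnion]
    exact ⟨sh i, Finset.mem_range.2 h2, (mem_SS h _ _).2 rfl⟩
  summ := fun i z y _ _ => (hs_ker h lam ε c₀ i z y).summable
  loc := by
    intro i
    refine ⟨(√(m (sh i) : ℝ))⁻¹ * (6 * (c₀ * lam ^ sh i)), fun z y hz hy => ?_⟩
    have hz2 := Sk_l2 hlam hz
    have hy2 := Sk_l2 hlam hy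
    have hcl : 0 < c₀ * lam ^ sh i := mul_pos hc (pow_pos (by linarith) _)
    have hsy := Real.sqrt_nonneg (∑' a, y a ^ 2)
    rw [bl_ker h, abs_mul, abs_of_nonneg (inv_nonneg.2 (Real.sqrt_nonneg _))]
    have h1 : |bb sh ty m lam ε c₀ (ty i) (sh i) z y| ≤
        3 * (c₀ * lam ^ sh i * √(∑' a, y a ^ 2)) * (√(∑' a, z a ^ 2) + √(∑' a, z a ^ 2)) := by
      refine bb_le hlam hc hε hε1 _ _ z y (fun b => am_l2 h hz2 b _) (fun _ b => am_l2 h hz2 b _)
        (Real.sqrt_nonneg _) (fun b => mul_le_mul_of_nonneg_left (am_l2 h hy2 b _) hcl.le)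
        (fun b => mul_le_mul_of_nonneg_left (am_l2 h hy2 b _) hcl.le) (fun _ b => ?_)
      refine mul_le_mul ?_ (am_l2 h hy2 b _) (abs_nonneg _) hcl.le
      exact mul_le_mul_of_nonneg_left (pow_le_pow_right₀ hlam.le (Nat.sub_le _ _)) hc.le
    calc (√(m (sh i) : ℝ))⁻¹ * |bb sh ty m lam ε c₀ (ty i) (sh i) z y|
        ≤ (√(m (sh i) : ℝ))⁻¹ * (3 * (c₀ * lam ^ sh i * √(∑' a, y a ^ 2)) *
          (√(∑' a, z a ^ 2) + √(∑' a, z a ^ 2))) :=
          mul_le_mul_of_nonneg_left h1 (inv_nonneg.2 (Real.sqrt_nonneg _))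
      _ = _ := by ring
  est := by
    intro k
    refine ⟨72 * c₀ ^ 2 * (lam ^ (k + 1)) ^ 2, fun z y hz hy => ?_⟩
    have hA := nk0 (fun i => lam ^ sh i) (k + 1) z
    have hB := nk0 (fun i => lam ^ sh i) 1 y
    have hA' := nk0 (fun i => lam ^ sh i) (k + 1) y
    have hB' := nk0 (fun i => lam ^ sh i) 1 z
    have hnn : ∀ i, 0 ≤ ((lam ^ sh i) ^ (k + 1) * bl (ker sh ty m lam ε c₀) z y i) ^ 2 /
        (1 + di i) := fun i => div_nonneg (sq_nonneg _) (by have := hd i; linarith)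
    have hle : ∀ u : Finset I, ∑ i ∈ u,
        ((lam ^ sh i) ^ (k + 1) * bl (ker sh ty m lam ε c₀) z y i) ^ 2 / (1 + di i) ≤
        72 * c₀ ^ 2 * (lam ^ (k + 1)) ^ 2 *
        (nk (fun i => lam ^ sh i) (k + 1) z * nk (fun i => lam ^ sh i) 1 y +
          nk (fun i => lam ^ sh i) 1 z * nk (fun i => lam ^ sh i) (k + 1) y) := by
      intro u
      refine (Finset.sum_le_sum fun i _ => div_le_self (sq_nonneg _)
        (by have := hd i; linarith)).trans ?_
      refine (est_fin h hlam hc hε hε1 k z y hz hy u).trans ?_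
      refine mul_le_mul_of_nonneg_left ?_ (by positivity)
      have := mul_nonneg hB' hA'
      linarith
    exact ⟨summable_of_sum_le hnn hle, Real.tsum_le_of_sum_le hnn hle⟩

end

theorem t_ADM : S_ADM := by
  intro I sh ty m di lam ε c₀ h hd hlam hc hε hε1
  exact adm h hd hlam hc hε hε1

end Pool.Agent.K1H21.LO
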