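import Pool.Agent.K1H54.LO.Defs2
import Pool.Agent.K1H21.LO.Adm
import Pool.Agent.K1H30.OP.Proj

/-!
From the modes to the Fourier coefficients (`S_EX`).
-/

open Set Topology MeasureTheory
open Filter hiding ker

set_option autoImplicit false

namespace Pool.Agent.K1H21.LO

open Pool.Agent.Y5 Pool.Agent.Y5.D Pool.Agent.Y5.E Pool.Agent.K1H54.LO
open Pool.Agent.K1H30.OP (inner_pe_self norm_pe_sq Pj_thin Pj_not)
open Pool.Agent.Y248.ND (vec_neg)

variable {s₀ N₁ δ₀ c₀ lam : ℝ} {N : ℕ → ℝ} {m : ℕ → ℕ} {A B : ℕ → Finset Z3}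

lemma mem_UU {I : Type} {sh : I → ℕ} {ty : I → Bool} {m : ℕ → ℕ} (h : Shl sh ty m) (N : ℕ)
    (i : I) (hi : i ∈ UU h N) : sh i < N := by
  classical
  unfold UU at hi
  rw [Finset.mem_biUnion] at hi
  obtain ⟨n, hn, h5⟩ := hi
  rw [mem_SS] at h5
  rw [Finset.mem_range] at hn
  omega

/-! ### The modes and their frequencies -/

lemma kM_mem (i : IM A B) : kM i ∈ A (shM i) ∪ B (shM i) := i.2.2

lemma IM_ext {i j : IM A B} (h1 : shM i = shM j) (h2 : kM i = kM j) : i = j := by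
  obtain ⟨n, k, hk⟩ := i
  obtain ⟨n', k', hk'⟩ := j
  simp only [shM, kM] at h1 h2
  subst h1
  subst h2
  rfl

lemma kM_inj (hG : Geo s₀ N₁ δ₀ c₀ lam N m A B) {i j : IM A B} (h : kM i = kM j) : i = j := by
  refine IM_ext ?_ h
  by_contra hne
  have h1 := hG.disj _ _ hne
  rw [Finset.disjoint_left] at h1
  exact h1 (kM_mem i) (h ▸ kM_mem j)

lemma kM_pos (hG : Geo s₀ N₁ δ₀ c₀ lam N m A B) (i : IM A B) : 0 < kM i 0 :=
  hG.pos _ _ (kM_mem i)

lemma kM_neg_ne (hG : Geo s₀ N₁ δ₀ c₀ lam N m A B) (i j : IM A B) : kM i ≠ -kM j := by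
  intro h
  have h1 := kM_pos hG i
  have h2 := kM_pos hG j
  rw [h, Pi.neg_apply] at h1
  omega

lemma tyM_true (i : IM A B) : tyM i = true ↔ kM i ∈ A (shM i) := decide_eq_true_iff

lemma tyM_false (i : IM A B) : tyM i = false ↔ kM i ∉ A (shM i) := decide_eq_false_iff_not

lemma shl (hG : Geo s₀ N₁ δ₀ c₀ lam N m A B) : Shl (shM (A := A) (B := B)) tyM m := by
  have hfin : ∀ n b, {i : IM A B | shM i = n ∧ tyM i = b}.Finite := by
    intro n b
    refine Set.Finite.of_finite_image (f := kM) ?_ (fun i _ j _ h => kM_inj hG h)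
    refine (Finset.finite_toSet (A n ∪ B n)).subset ?_
    rintro k ⟨i, hi, rfl⟩
    have := kM_mem i
    rw [hi.1] at this
    exact this
  refine ⟨hfin, fun n b => ?_, hG.mpos⟩
  cases b
  · rw [← hG.cardB n, ← Set.ncard_coe_finset]
    refine Set.ncard_congr (fun i _ => kM i) (fun i hi => ?_) (fun i j _ _ h => kM_inj hG h)
      (fun k hk => ?_)
    · have h1 := kM_mem i
      rw [hi.1, Finset.mem_union] at h1
      have h2 : kM i ∉ A n := by
        have h3 := (tyM_false i).1 hi.2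
        rwa [hi.1] at h3
      exact h1.resolve_left h2
    · refine ⟨⟨n, k, Finset.mem_union_right _ hk⟩, ⟨rfl, ?_⟩, rfl⟩
      unfold tyM
      rw [decide_eq_false_iff_not]
      intro h1
      have h2 := hG.disj' n
      rw [Finset.disjoint_left] at h2
      exact h2 h1 hk
  · rw [← hG.cardA n, ← Set.ncard_coe_finset]
    refine Set.ncard_congr (fun i _ => kM i) (fun i hi => ?_) (fun i j _ _ h => kM_inj hG h)
      (fun k hk => ?_)
    · have h3 := (tyM_true i).1 hi.2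
      rwa [hi.1] at h3
    · refine ⟨⟨n, k, Finset.mem_union_left _ hk⟩, ⟨rfl, ?_⟩, rfl⟩
      unfold tyM
      rw [decide_eq_true_iff]
      exact hk

/-! ### The fields of the modes -/

lemma eM_self (i : IM A B) : eM i (kM i) = ((√2)⁻¹ * ‖pe (kM i)‖⁻¹) • pe (kM i) := by
  unfold eM; rw [if_pos rfl]

lemma eM_neg_self (hG : Geo s₀ N₁ δ₀ c₀ lam N m A B) (i : IM A B) :
    eM i (-kM i) = -(((√2)⁻¹ * ‖pe (kM i)‖⁻¹) • pe (kM i)) := by
  unfold eM
  rw [if_neg (fun h => kM_neg_ne hG i i h.symm), if_pos rfl, Pool.Agent.K1H30.OP.pe_neg]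

lemma eM_not {i : IM A B} {k : Z3} (h1 : k ≠ kM i) (h2 : k ≠ -kM i) : eM i k = 0 := by
  unfold eM; rw [if_neg h1, if_neg h2]

lemma eM_neg (hG : Geo s₀ N₁ δ₀ c₀ lam N m A B) (i : IM A B) (k : Z3) :
    eM i (-k) = -eM i k := by
  by_cases h1 : k = kM i
  · rw [h1, eM_self, eM_neg_self hG]
  · by_cases h2 : k = -kM i
    · rw [h2, neg_neg, eM_self, eM_neg_self hG, neg_neg]
    · rw [eM_not h1 h2, eM_not (fun h => h2 (by rw [← h, neg_neg])) (fun h => h1 (neg_injective h)),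
        neg_zero]

lemma eM_ne {i : IM A B} {k : Z3} (h : eM i k ≠ 0) : k = kM i ∨ k = -kM i := by
  by_contra h1
  rw [not_or] at h1
  exact h (eM_not h1.1 h1.2)

/-- at most one mode touches a frequency -/
lemma eM_uniq (hG : Geo s₀ N₁ δ₀ c₀ lam N m A B) {i j : IM A B} {k : Z3} (h : k = kM i ∨ k = -kM i)
    (h' : eM j k ≠ 0) : j = i := by
  rcases eM_ne h' with h1 | h1 <;> rcases h with h2 | h2
  · exact kM_inj hG (h1 ▸ h2)
  · exact absurd (h1.symm.trans h2) (kM_neg_ne hG j i)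
  · exact absurd (h2.symm.trans h1) (kM_neg_ne hG i j)
  · exact kM_inj hG (neg_injective (h1 ▸ h2))

lemma VM_one (hG : Geo s₀ N₁ δ₀ c₀ lam N m A B) (z : IM A B → ℝ) {i : IM A B} {k : Z3}
    (h : k = kM i ∨ k = -kM i) : VM z k = z i • eM i k := by
  unfold VM
  refine tsum_eq_single i fun j hj => ?_
  by_contra h1
  have h2 : eM j k ≠ 0 := fun h3 => h1 (by rw [h3, smul_zero])
  exact hj (eM_uniq hG h h2)

lemma VM_zero (z : IM A B → ℝ) {k : Z3} (h : ∀ i : IM A B, ¬ (k = kM i ∨ k = -kM i)) :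
    VM z k = 0 := by
  unfold VM
  rw [← tsum_zero (α := E3) (β := IM A B)]
  refine tsum_congr fun j => ?_
  have := h j
  rw [not_or] at this
  rw [eM_not this.1 this.2, smul_zero]

lemma thin_kM (hG : Geo s₀ N₁ δ₀ c₀ lam N m A B) {i : IM A B} {k : Z3}
    (h : k = kM i ∨ k = -kM i) : Thin s₀ N₁ k := by
  rcases h with h | h
  · rw [h]; exact hG.thin _ _ (kM_mem i)
  · rw [h]; exact Pool.Agent.K1H30.OP.thin_neg (hG.thin _ _ (kM_mem i))

lemma thin_one (hN : 2 ≤ N₁) {k : Z3} (h : Thin s₀ N₁ k) : 1 < ‖vec k‖ := by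
  have := h.1; linarith

lemma pe_pos (h1 : s₀ < 1) (hN : 2 ≤ N₁) {k : Z3} (h : Thin s₀ N₁ k) : 0 < ‖pe k‖ := by
  have h2 := thin_one hN h
  have h3 := norm_pe_sq k (by linarith)
  have h4 : ‖vec k‖ ^ s₀ < ‖vec k‖ := by
    calc ‖vec k‖ ^ s₀ < ‖vec k‖ ^ (1 : ℝ) := Real.rpow_lt_rpow_of_exponent_lt h2 h1
      _ = ‖vec k‖ := Real.rpow_one _
  have h5 : |(k 2 : ℝ)| < ‖vec k‖ := h.2.trans_lt h4
  have h6 : (k 2 : ℝ) ^ 2 < ‖vec k‖ ^ 2 := by
    rw [← sq_abs]
    exact pow_lt_pow_left₀ h5 (abs_nonneg _) two_ne_zero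
  have h7 : (k 2 : ℝ) ^ 2 / ‖vec k‖ ^ 2 < 1 := by
    rw [div_lt_one (by positivity)]
    exact h6
  have h8 : 0 < ‖pe k‖ ^ 2 := by rw [h3]; linarith
  exact lt_of_le_of_ne (norm_nonneg _) fun h9 => by
    rw [← h9] at h8
    norm_num at h8

lemma eM_tan (hG : Geo s₀ N₁ δ₀ c₀ lam N m A B) (hN : 2 ≤ N₁) (i : IM A B) (k : Z3) :
    inner ℝ (vec k) (eM i k) = (0 : ℝ) := by
  by_cases h : k = kM i ∨ k = -kM i
  · have h1 := thin_one hN (thin_kM hG h)
    have h2 : (inner ℝ (vec k) (pe k) : ℝ) = 0 := by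
      rw [real_inner_comm]
      exact inner_pe_self k (by linarith)
    unfold eM
    rcases h with h | h
    · rw [if_pos h, real_inner_smul_right, h2, mul_zero]
    · rw [if_neg (fun h' => kM_neg_ne hG i i (h'.symm.trans h)), if_pos h, inner_neg_right,
        real_inner_smul_right, h2, mul_zero, neg_zero]
  · rw [not_or] at h
    rw [eM_not h.1 h.2, inner_zero_right]

lemma VM_ot (hG : Geo s₀ N₁ δ₀ c₀ lam N m A B) (hN : 2 ≤ N₁) (z : IM A B → ℝ) : OT (VM z) := by
  constructor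
  · intro k
    unfold VM
    rw [← tsum_neg]
    refine tsum_congr fun i => ?_
    rw [eM_neg hG, smul_neg]
  · intro k
    by_cases h : ∃ i : IM A B, k = kM i ∨ k = -kM i
    · obtain ⟨i, hi⟩ := h
      rw [VM_one hG z hi, real_inner_smul_right, eM_tan hG hN, mul_zero]
    · rw [VM_zero z (fun i hi => h ⟨i, hi⟩), inner_zero_right]

lemma VM_fin (hG : Geo s₀ N₁ δ₀ c₀ lam N m A B) (z : IM A B → ℝ) (hz : {i | z i ≠ 0}.Finite) :
    {k | VM z k ≠ 0}.Finite := by
  refine ((hz.image kM).union ((hz.image kM).image (fun k => -k))).subset ?_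
  intro k hk
  by_cases h : ∃ i : IM A B, k = kM i ∨ k = -kM i
  · obtain ⟨i, hi⟩ := h
    have h1 : z i ≠ 0 := by
      intro h2
      apply hk
      show VM z k = 0
      rw [VM_one hG z hi, h2, zero_smul]
    rcases hi with h3 | h3
    · left; exact ⟨i, h1, h3.symm⟩
    · right; exact ⟨kM i, ⟨i, h1, rfl⟩, h3.symm⟩
  · exact absurd (VM_zero z (fun i hi => h ⟨i, hi⟩)) hk

lemma eM_norm_le (i : IM A B) (k : Z3) : ‖eM i k‖ ≤ 1 := by
  have h0 : ‖((√2)⁻¹ * ‖pe k‖⁻¹) • pe k‖ ≤ 1 := by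
    rw [norm_smul, norm_mul, norm_inv, norm_inv, norm_norm]
    have h1 : ‖(√2 : ℝ)‖⁻¹ ≤ 1 := by
      apply inv_le_one_of_one_le₀
      rw [Real.norm_of_nonneg (Real.sqrt_nonneg _)]
      exact Real.one_le_sqrt.2 (by norm_num)
    have h2 : ‖pe k‖⁻¹ * ‖pe k‖ ≤ 1 := inv_mul_le_one
    rw [mul_assoc]
    exact mul_le_one₀ h1 (by positivity) h2
  unfold eM
  split_ifs
  · exact h0
  · rw [norm_neg]; exact h0
  · simp

lemma VM_norm (hG : Geo s₀ N₁ δ₀ c₀ lam N m A B) (z : IM A B → ℝ) {i : IM A B} {k : Z3}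
    (h : k = kM i ∨ k = -kM i) : ‖VM z k‖ ≤ |z i| := by
  rw [VM_one hG z h, norm_smul, Real.norm_eq_abs]
  exact mul_le_of_le_one_right (abs_nonneg _) (eM_norm_le i k)

/-! ### Pairings -/

lemma pair_eM (hG : Geo s₀ N₁ δ₀ c₀ lam N m A B) (h1 : s₀ < 1) (hN : 2 ≤ N₁) (i : IM A B)
    (w : IM A B → ℝ) : pair (eM i) (VM w) = w i := by
  have hne : kM i ≠ -kM i := kM_neg_ne hG i i
  unfold pair
  rw [tsum_eq_sum (s := {kM i, -kM i})]
  · rw [Finset.sum_pair hne, VM_one hG w (Or.inl rfl), VM_one hG w (Or.inr rfl), eM_neg hG,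
      inner_neg_left, smul_neg, inner_neg_right, neg_neg, real_inner_smul_right,
      real_inner_self_eq_norm_sq, eM_self, norm_smul, norm_mul, norm_inv, norm_inv, norm_norm]
    have h3 := pe_pos h1 hN (thin_kM hG (Or.inl rfl : kM i = kM i ∨ kM i = -kM i))
    have h4 : ‖(√2 : ℝ)‖ = √2 := Real.norm_of_nonneg (Real.sqrt_nonneg _)
    have h5 : (√2 : ℝ) ^ 2 = 2 := Real.sq_sqrt (by norm_num)
    rw [h4]
    have h6 : (√2)⁻¹ * ‖pe (kM i)‖⁻¹ * ‖pe (kM i)‖ = (√2)⁻¹ := by
      rw [mul_assoc, inv_mul_cancel₀ h3.ne', mul_one]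
    rw [h6, inv_pow, h5]
    ring
  · intro k hk
    simp only [Finset.mem_insert, Finset.mem_singleton, not_or] at hk
    rw [eM_not hk.1 hk.2, inner_zero_left]

/-- pairing with a finite family -/
lemma pair_VM (z : IM A B → ℝ) {Z : Fam}
    (hZo : ∀ k, Z (-k) = -Z k) (hZf : {k | Z k ≠ 0}.Finite) (J : Finset (IM A B))
    (hJ : ∀ i, Z (kM i) ≠ 0 → i ∈ J) :
    pair (VM z) Z = ∑ i ∈ J, z i * pair (eM i) Z := by
  classical
  have e1 : ∀ k, Z k ≠ 0 → VM z k = ∑ i ∈ J, z i • eM i k := by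
    intro k hk
    unfold VM
    refine tsum_eq_sum fun i hi => ?_
    by_contra h1
    have h2 : eM i k ≠ 0 := fun h3 => h1 (by rw [h3, smul_zero])
    apply hi
    apply hJ
    rcases eM_ne h2 with h4 | h4
    · rwa [← h4]
    · intro h5
      apply hk
      rw [h4, hZo, h5, neg_zero]
  have e2 : ∀ V : Fam, pair V Z = ∑ k ∈ hZf.toFinset, (inner ℝ (V k) (Z k) : ℝ) := by
    intro V
    unfold pair
    refine tsum_eq_sum fun k hk => ?_
    rw [Set.Finite.mem_toFinset, Set.mem_ofPred_eq, not_not] at hk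
    rw [hk, inner_zero_right]
  rw [e2]
  simp only [e2]
  have e3 : ∀ k ∈ hZf.toFinset, (inner ℝ (VM z k) (Z k) : ℝ) =
      ∑ i ∈ J, z i * (inner ℝ (eM i k) (Z k) : ℝ) := by
    intro k hk
    rw [Set.Finite.mem_toFinset, Set.mem_ofPred_eq] at hk
    rw [e1 k hk, sum_inner]
    exact Finset.sum_congr rfl fun i _ => real_inner_smul_left _ _ _
  rw [Finset.sum_congr rfl e3, Finset.sum_comm]
  exact Finset.sum_congr rfl fun i _ => (Finset.mul_sum _ _ _).symm

lemma VM_fv_true (hG : Geo s₀ N₁ δ₀ c₀ lam N m A B) (n : ℕ) :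
    VM (fv (shM (A := A) (B := B)) tyM m true n) = pk (A n) (m n) := by
  funext k
  have hm : (0 : ℝ) < m n := by exact_mod_cast hG.mpos n
  have e2 : √(2 * m n : ℝ) = √2 * √(m n : ℝ) := Real.sqrt_mul (by norm_num) _
  have key : ∀ k : Z3, (√(m n : ℝ))⁻¹ • (((√2)⁻¹ * ‖pe k‖⁻¹) • pe k) =
      ((√(2 * m n : ℝ))⁻¹ * ‖pe k‖⁻¹) • pe k := by
    intro k
    rw [smul_smul, e2, mul_inv]
    congr 1
    ring
  by_cases h1 : k ∈ A n
  · have h2 : k = kM (⟨n, k, Finset.mem_union_left _ h1⟩ : IM A B) := rfl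
    rw [VM_one hG _ (Or.inl h2)]
    unfold pk eM fv
    rw [if_pos h1, if_pos h2, if_pos ⟨rfl, by unfold tyM; rw [decide_eq_true_iff]; exact h1⟩, key]
  · by_cases h2 : -k ∈ A n
    · have h3 : k = -kM (⟨n, -k, Finset.mem_union_left _ h2⟩ : IM A B) := by
        simp [kM]
      have h4 : k ≠ kM (⟨n, -k, Finset.mem_union_left _ h2⟩ : IM A B) := by
        intro h5
        exact kM_neg_ne hG _ _ (h5.symm.trans h3)
      rw [VM_one hG _ (Or.inr h3)]
      unfold pk eM fv
      rw [if_neg h1, if_pos h2, if_neg h4, if_pos h3,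
        if_pos ⟨rfl, by unfold tyM; rw [decide_eq_true_iff]; exact h2⟩, smul_neg, key]
    · have h5 : pk (A n) (m n) k = 0 := by
        unfold pk; rw [if_neg h1, if_neg h2]
      rw [h5]
      by_cases h : ∃ i : IM A B, k = kM i ∨ k = -kM i
      · obtain ⟨i, hi⟩ := h
        rw [VM_one hG _ hi]
        have h6 : fv (shM (A := A) (B := B)) tyM m true n i = 0 := by
          unfold fv
          rw [if_neg]
          rintro ⟨h7, h8⟩
          rw [tyM_true, h7] at h8
          rcases hi with h10 | h10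
          · exact h1 (by rw [h10]; exact h8)
          · exact h2 (by rw [h10, neg_neg]; exact h8)
        rw [h6, zero_smul]
      · exact VM_zero _ (fun i hi => h ⟨i, hi⟩)

lemma VM_fv_false (hG : Geo s₀ N₁ δ₀ c₀ lam N m A B) (n : ℕ) :
    VM (fv (shM (A := A) (B := B)) tyM m false n) = pk (B n) (m n) := by
  funext k
  have hm : (0 : ℝ) < m n := by exact_mod_cast hG.mpos n
  have e2 : √(2 * m n : ℝ) = √2 * √(m n : ℝ) := Real.sqrt_mul (by norm_num) _
  have hd := hG.disj' n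
  rw [Finset.disjoint_left] at hd
  have key : ∀ k : Z3, (√(m n : ℝ))⁻¹ • (((√2)⁻¹ * ‖pe k‖⁻¹) • pe k) =
      ((√(2 * m n : ℝ))⁻¹ * ‖pe k‖⁻¹) • pe k := by
    intro k
    rw [smul_smul, e2, mul_inv]
    congr 1
    ring
  by_cases h1 : k ∈ B n
  · have h2 : k = kM (⟨n, k, Finset.mem_union_right _ h1⟩ : IM A B) := rfl
    rw [VM_one hG _ (Or.inl h2)]
    unfold pk eM fv
    rw [if_pos h1, if_pos h2, if_pos ⟨rfl, by
      unfold tyM; rw [decide_eq_false_iff_not]; exact fun h => hd h h1⟩, key]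
  · by_cases h2 : -k ∈ B n
    · have h3 : k = -kM (⟨n, -k, Finset.mem_union_right _ h2⟩ : IM A B) := by
        simp [kM]
      have h4 : k ≠ kM (⟨n, -k, Finset.mem_union_right _ h2⟩ : IM A B) := by
        intro h5
        exact kM_neg_ne hG _ _ (h5.symm.trans h3)
      rw [VM_one hG _ (Or.inr h3)]
      unfold pk eM fv
      rw [if_neg h1, if_pos h2, if_neg h4, if_pos h3,
        if_pos ⟨rfl, by unfold tyM; rw [decide_eq_false_iff_not]; exact fun h => hd h h2⟩,
        smul_neg, key]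
    · have h5 : pk (B n) (m n) k = 0 := by
        unfold pk; rw [if_neg h1, if_neg h2]
      rw [h5]
      by_cases h : ∃ i : IM A B, k = kM i ∨ k = -kM i
      · obtain ⟨i, hi⟩ := h
        rw [VM_one hG _ hi]
        have h6 : fv (shM (A := A) (B := B)) tyM m false n i = 0 := by
          unfold fv
          rw [if_neg]
          rintro ⟨h7, h8⟩
          rw [tyM_false, h7] at h8
          have h11 := kM_mem i
          rw [h7, Finset.mem_union] at h11
          have h12 := h11.resolve_left h8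
          rcases hi with h10 | h10
          · exact h1 (by rw [h10]; exact h12)
          · exact h2 (by rw [h10, neg_neg]; exact h12)
        rw [h6, zero_smul]
      · exact VM_zero _ (fun i hi => h ⟨i, hi⟩)

/-! ### The perturbation -/

lemma Pj_VM (hG : Geo s₀ N₁ δ₀ c₀ lam N m A B) (h1 : s₀ < 1) (hN : 2 ≤ N₁) (z : IM A B → ℝ) :
    Pj s₀ N₁ (VM z) = VM z := by
  funext k
  by_cases h : ∃ i : IM A B, k = kM i ∨ k = -kM i
  · obtain ⟨i, hi⟩ := h
    have h2 := thin_kM hG hi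
    have h3 := pe_pos h1 hN h2
    rw [Pj_thin h2, VM_one hG z hi]
    have h4 : ∃ c : ℝ, eM i k = c • pe k := by
      unfold eM
      rcases hi with h | h
      · rw [if_pos h]; exact ⟨_, rfl⟩
      · rw [if_neg (fun h' => kM_neg_ne hG i i (h'.symm.trans h)), if_pos h]
        exact ⟨-((√2)⁻¹ * ‖pe k‖⁻¹), by rw [neg_smul]⟩
    obtain ⟨c, hc⟩ := h4
    rw [hc, smul_smul, real_inner_smul_left, real_inner_self_eq_norm_sq,
      mul_div_cancel_right₀ _ (pow_ne_zero 2 h3.ne')]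
  · rw [VM_zero z (fun i hi => h ⟨i, hi⟩)]
    by_cases h2 : Thin s₀ N₁ k
    · rw [Pj_thin h2, VM_zero z (fun i hi => h ⟨i, hi⟩), inner_zero_left, zero_div, zero_smul]
    · exact Pj_not h2

lemma b1_VM (hG : Geo s₀ N₁ δ₀ c₀ lam N m A B) (h1 : s₀ < 1) (hN : 2 ≤ N₁) (z w : IM A B → ℝ)
    (Z : Fam) : b1 s₀ N₁ (VM z) (VM w) Z = -bil (VM z) (VM w) Z := by
  unfold b1
  rw [Pj_VM hG h1 hN, Pj_VM hG h1 hN]
  ring

lemma am_pair (hG : Geo s₀ N₁ δ₀ c₀ lam N m A B) {Z : Fam}
    (hZo : ∀ k, Z (-k) = -Z k) (hZf : {k | Z k ≠ 0}.Finite) (b : Bool) (n : ℕ) :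
    am (shM (A := A) (B := B)) tyM m b n (fun i => pair (eM i) Z) =
      pair (VM (fv (shM (A := A) (B := B)) tyM m b n)) Z := by
  classical
  have hS := shl hG
  have hf : {i : IM A B | Z (kM i) ≠ 0}.Finite := by
    refine Set.Finite.of_finite_image (f := kM) ?_ (fun i _ j _ h => kM_inj hG h)
    refine hZf.subset ?_
    rintro k ⟨i, hi, rfl⟩
    exact hi
  rw [pair_VM _ hZo hZf (hf.toFinset ∪ SF hS b n)
    (fun i hi => Finset.mem_union_left _ (by rw [Set.Finite.mem_toFinset]; exact hi)), am_sum hS]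
  refine Finset.sum_subset Finset.subset_union_right fun i _ hi => ?_
  rw [fv_zero hS b n i hi, zero_mul]

lemma eM_sym (i : IM A B) {Z : Fam} (h : ∀ k, Z (-k) = -Z k) (h0 : Z (kM i) = 0) :
    pair (eM i) Z = 0 := by
  unfold pair
  rw [← tsum_zero (α := ℝ) (β := Z3)]
  refine tsum_congr fun k => ?_
  by_cases h1 : eM i k = 0
  · rw [h1, inner_zero_left]
  · rcases eM_ne h1 with h2 | h2
    · rw [h2, h0, inner_zero_right]
    · rw [h2, h, h0, neg_zero, inner_zero_right]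

lemma am_VM (hG : Geo s₀ N₁ δ₀ c₀ lam N m A B) (h1 : s₀ < 1) (hN : 2 ≤ N₁) (z : IM A B → ℝ)
    (b : Bool) (n : ℕ) : pair (VM z) (VM (fv (shM (A := A) (B := B)) tyM m b n)) =
      am (shM (A := A) (B := B)) tyM m b n z := by
  classical
  have hS := shl hG
  have hf : {i : IM A B | fv (shM (A := A) (B := B)) tyM m b n i ≠ 0}.Finite := by
    refine (SF hS b n).finite_toSet.subset fun i hi => ?_
    by_contra h2
    exact hi (fv_zero hS b n i h2)
  have hot := VM_ot hG hN (fv (shM (A := A) (B := B)) tyM m b n)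
  rw [pair_VM z hot.odd (VM_fin hG _ hf) (SF hS b n), am_sum hS]
  · refine Finset.sum_congr rfl fun i _ => ?_
    rw [pair_eM hG h1 hN, mul_comm]
  · intro i hi
    by_contra h2
    apply hi
    rw [VM_one hG _ (Or.inl rfl), fv_zero hS b n i h2, zero_smul]

/-- the cascade, in terms of the modes -/
lemma bT_VM (hG : Geo s₀ N₁ δ₀ c₀ lam N m A B) (h1 : s₀ < 1) (hN : 2 ≤ N₁) (ε : ℝ)
    (z : IM A B → ℝ) {Z : Fam} (hZo : ∀ k, Z (-k) = -Z k) (J : Finset (IM A B))
    (hZf : {k | Z k ≠ 0}.Finite) (hJ : ∀ i, Z (kM i) ≠ 0 → i ∈ J) :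
    bT lam ε c₀ (fun n => pk (A n) (m n)) (fun n => pk (B n) (m n)) (VM z) (VM z) Z =
      ∑ i ∈ J, bl (ker shM tyM m lam ε c₀) z z i * pair (eM i) Z := by
  classical
  have hS := shl hG
  obtain ⟨K, hK⟩ := sub_UU hS J
  -- the amplitudes of `Z`
  set g : IM A B → ℝ := fun i => pair (eM i) Z with hg
  have hg0 : ∀ i, i ∉ J → g i = 0 := by
    intro i hi
    exact eM_sym i hZo (by by_contra h2; exact hi (hJ i h2))
  have hP : ∀ n, pair Z (pk (A n) (m n)) = am (shM (A := A) (B := B)) tyM m true n g := by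
    intro n
    rw [hg, am_pair hG hZo hZf, VM_fv_true hG]
    unfold pair
    exact tsum_congr fun k => real_inner_comm _ _
  have hQ : ∀ n, pair Z (pk (B n) (m n)) = am (shM (A := A) (B := B)) tyM m false n g := by
    intro n
    rw [hg, am_pair hG hZo hZf, VM_fv_false hG]
    unfold pair
    exact tsum_congr fun k => real_inner_comm _ _
  have hY : ∀ n, pair (VM z) (pk (A n) (m n)) = am (shM (A := A) (B := B)) tyM m true n z := by
    intro n
    rw [← VM_fv_true hG, am_VM hG h1 hN]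
  have hX : ∀ n, pair (VM z) (pk (B n) (m n)) = am (shM (A := A) (B := B)) tyM m false n z := by
    intro n
    rw [← VM_fv_false hG, am_VM hG h1 hN]
  have hz : ∀ b n, K ≤ n → am (shM (A := A) (B := B)) tyM m b n g = 0 := by
    intro b n hn
    rw [am_sum hS]
    refine Finset.sum_eq_zero fun i hi => ?_
    have h2 : i ∉ J := by
      intro h3
      have h4 := mem_UU hS K i (hK h3)
      rw [mem_SF] at hi
      omega
    rw [hg0 i h2, mul_zero]
  have e1 : bT lam ε c₀ (fun n => pk (A n) (m n)) (fun n => pk (B n) (m n)) (VM z) (VM z) Z =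
      ∑ n ∈ Finset.range K, c₀ * lam ^ n * (
        am shM tyM m false n z * (am shM tyM m true n z * am shM tyM m false n g -
          am shM tyM m false n z * am shM tyM m true n g)
        + am shM tyM m false n z * (am shM tyM m false n z * am shM tyM m true (n + 1) g -
          am shM tyM m true (n + 1) z * am shM tyM m false n g)
        + ε * (am shM tyM m true n z * (am shM tyM m true n z * am shM tyM m false n g -
          am shM tyM m false n z * am shM tyM m true n g))) := by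
    unfold bT
    simp only [hP, hQ, hX, hY]
    refine tsum_eq_sum fun n hn => ?_
    rw [Finset.mem_range, not_lt] at hn
    rw [hz true n hn, hz false n hn, hz true (n + 1) (by omega)]
    ring
  have e2 : ∑ i ∈ J, bl (ker shM tyM m lam ε c₀) z z i * g i =
      ∑ n ∈ Finset.range K, (bb shM tyM m lam ε c₀ true n z z * am shM tyM m true n g +
        bb shM tyM m lam ε c₀ false n z z * am shM tyM m false n g) := by
    rw [Finset.sum_subset hK (fun i _ hi => by rw [hg0 i hi, mul_zero]), sum_UU]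
    refine Finset.sum_congr rfl fun n _ => ?_
    rw [sum_SS, am_eq hS, am_eq hS, Finset.mul_sum, Finset.mul_sum, Finset.mul_sum,
      Finset.mul_sum]
    congr 1
    · refine Finset.sum_congr rfl fun i hi => ?_
      rw [mem_SF] at hi
      rw [bl_ker hS, hi.1, hi.2]
      ring
    · refine Finset.sum_congr rfl fun i hi => ?_
      rw [mem_SF] at hi
      rw [bl_ker hS, hi.1, hi.2]
      ring
  show _ = ∑ i ∈ J, bl (ker shM tyM m lam ε c₀) z z i * g i
  rw [e1, e2]
  -- telescoping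
  set F : ℕ → ℝ := fun n => (if n = 0 then 0 else c₀ * lam ^ (n - 1) *
      (am shM tyM m false (n - 1) z * am shM tyM m false (n - 1) z)) * am shM tyM m true n g with hF
  have e3 : ∑ n ∈ Finset.range K, (F (n + 1) - F n) = 0 := by
    rw [Finset.sum_range_sub]
    simp only [hF]
    rw [hz true K le_rfl]
    simp
  rw [← add_zero (∑ n ∈ Finset.range K, (bb shM tyM m lam ε c₀ true n z z *
    am shM tyM m true n g + bb shM tyM m lam ε c₀ false n z z * am shM tyM m false n g)), ← e3,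
    ← Finset.sum_add_distrib]
  refine Finset.sum_congr rfl fun n _ => ?_
  simp only [hF]
  unfold bb
  simp only [Bool.false_eq_true, if_false, if_true, Nat.add_eq_zero_iff, one_ne_zero, and_false,
    Nat.add_sub_cancel]
  ring

/-! ### The equation -/

lemma lpn_VM (hG : Geo s₀ N₁ δ₀ c₀ lam N m A B) (z : IM A B → ℝ) {Z : Fam}
    (hZo : ∀ k, Z (-k) = -Z k) (J : Finset (IM A B))
    (hZf : {k | Z k ≠ 0}.Finite) (hJ : ∀ i, Z (kM i) ≠ 0 → i ∈ J) (ν : ℝ) :
    ν * lpn (VM z) Z = ∑ i ∈ J, ν * (2 * Real.pi * ‖vec (kM i)‖) ^ 2 * z i * pair (eM i) Z := by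
  have e1 : ∀ k, VM (fun i => ‖vec (kM i)‖ ^ 2 * z i) k = ‖vec k‖ ^ 2 • VM z k := by
    intro k
    by_cases h : ∃ i : IM A B, k = kM i ∨ k = -kM i
    · obtain ⟨i, hi⟩ := h
      rw [VM_one hG _ hi, VM_one hG _ hi, smul_smul]
      have : ‖vec k‖ = ‖vec (kM i)‖ := by
        rcases hi with h | h
        · rw [h]
        · rw [h, vec_neg, norm_neg]
      rw [this]
    · rw [VM_zero _ (fun i hi => h ⟨i, hi⟩), VM_zero _ (fun i hi => h ⟨i, hi⟩), smul_zero]
  have e2 : lpn (VM z) Z = (2 * Real.pi) ^ 2 * pair (VM (fun i => ‖vec (kM i)‖ ^ 2 * z i)) Z := by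
    unfold lpn pair
    congr 1
    refine tsum_congr fun k => ?_
    rw [e1, real_inner_smul_left]
  rw [e2, pair_VM _ hZo hZf J hJ, Finset.mul_sum, Finset.mul_sum]
  refine Finset.sum_congr rfl fun i _ => ?_
  ring

theorem t_EX : S_EX := by
  classical
  intro s₀ N₁ δ₀ c₀ lam ε ν N m A B hs0 hs1 hN hδ hε hε1 hG
  have hS := shl hG
  refine ⟨hS, fun z hz => ⟨VM_fin hG z hz, VM_ot hG hN z⟩, fun T z hT hs hr => ⟨?_, ?_, ?_⟩⟩
  · intro t _
    exact VM_ot hG hN _
  · intro p T' hT'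
    obtain ⟨M, hM⟩ := hr p T' hT'
    obtain ⟨X, hX⟩ := hG.grow
    have hlam := hG.lam1
    have hX0 : 0 < X := by
      have h1 := hX 0
      have h2 := hG.N1 0
      rw [pow_zero, mul_one] at h1
      linarith
    refine ⟨(2 * X) ^ p * √M, fun t ht k => ?_⟩
    obtain ⟨h1, h2⟩ := hM t ht
    by_cases h : ∃ i : IM A B, k = kM i ∨ k = -kM i
    · obtain ⟨i, hi⟩ := h
      have h3 : ‖vec k‖ ≤ 2 * X * lam ^ shM i := by
        have h4 : ‖vec k‖ = ‖vec (kM i)‖ := by
          rcases hi with h | h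
          · rw [h]
          · rw [h, vec_neg, norm_neg]
        rw [h4]
        have h5 := (hG.size _ _ (kM_mem i)).2
        have h6 := hX (shM i)
        linarith
      have h7 : |(lam ^ shM i) ^ p * z i t| ≤ √M := by
        apply Real.abs_le_sqrt
        refine le_trans ?_ h2
        exact h1.le_tsum i fun _ _ => sq_nonneg _
      have h8 := VM_norm hG (fun i => z i t) hi
      calc ‖vec k‖ ^ p * ‖VM (fun i => z i t) k‖ ≤ (2 * X * lam ^ shM i) ^ p * |z i t| := by
            gcongr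
        _ = (2 * X) ^ p * |(lam ^ shM i) ^ p * z i t| := by
            rw [mul_pow, abs_mul, abs_of_pos (a := (lam ^ shM i) ^ p) (by positivity)]
            ring
        _ ≤ _ := by gcongr
    · rw [VM_zero _ (fun i hi => h ⟨i, hi⟩), norm_zero, mul_zero]
      positivity
  · intro Z hZ hZf t ht
    have hf : {i : IM A B | Z (kM i) ≠ 0}.Finite := by
      refine Set.Finite.of_finite_image (f := kM) ?_ (fun i _ j _ h => kM_inj hG h)
      refine hZf.subset ?_
      rintro k ⟨i, hi, rfl⟩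
      exact hi
    set J := hf.toFinset with hJdef
    have hJ : ∀ i, Z (kM i) ≠ 0 → i ∈ J := fun i hi => by
      rw [hJdef, Set.Finite.mem_toFinset]; exact hi
    have e1 : (fun τ => pair (VM (fun i => z i τ)) Z) =
        fun τ => ∑ i ∈ J, z i τ * pair (eM i) Z := by
      funext τ
      exact pair_VM _ hZ.odd hZf J hJ
    rw [e1]
    have e2 := HasDerivWithinAt.fun_sum (u := J)
      (fun i _ => (hs.deriv i t ht).mul_const (pair (eM i) Z))
    refine e2.congr_deriv ?_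
    unfold bP
    rw [b1_VM hG hs1 hN, bT_VM hG hs1 hN ε _ hZ.odd J hZf hJ, lpn_VM hG _ hZ.odd J hZf hJ ν]
    rw [show ∀ a b c : ℝ, -a + b + (-b + c) = -a + c from fun a b c => by ring,
      ← Finset.sum_neg_distrib, ← Finset.sum_add_distrib]
    refine Finset.sum_congr rfl fun i _ => ?_
    ring

end Pool.Agent.K1H21.LO
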