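import Pool.Agent.K1H21.LO.Adm
import Pool.Agent.Z864.S2.Uni6

/-!
The reduced system of the modes and the energy identity (`S_RED`).
-/

open Set Topology MeasureTheory
open Filter hiding ker

set_option autoImplicit false

namespace Pool.Agent.K1H21.LO

open Pool.Agent.Y5 Pool.Agent.Y5.D Pool.Agent.Y5.E Pool.Agent.K1H54.LO
open Pool.Agent.Z864.S2 (hasDerivWithinAt_series)

section
variable {I : Type} {sh : I → ℕ} {ty : I → Bool} {m : ℕ → ℕ}

/-! ### Energies -/

lemma En_summ {z : I → ℝ} (hz : Summable fun i => z i ^ 2) (n : ℕ) :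
    Summable fun i => if n ≤ sh i then z i ^ 2 else 0 := by
  refine Summable.of_nonneg_of_le (fun i => ?_) (fun i => ?_) hz
  · split_ifs
    · exact sq_nonneg _
    · exact le_rfl
  · split_ifs
    · exact le_rfl
    · exact sq_nonneg _

lemma En_hasSum (h : Shl sh ty m) {z : I → ℝ} (hz : Summable fun i => z i ^ 2) (n : ℕ) :
    HasSum (fun j => sg h (n + j) z) (En sh z n) := by
  rw [hasSum_iff_tendsto_nat_of_nonneg (fun j => sg_nonneg h _ z)]
  have h1 : HasSum (fun i => if n ≤ sh i then z i ^ 2 else 0) (En sh z n) :=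
    (En_summ hz n).hasSum
  have h2 : Tendsto (fun N => UU h N) atTop atTop := by
    refine tendsto_atTop_finset_of_monotone ?_ ?_
    · intro a b hab i hi
      classical
      unfold UU at hi ⊢
      rw [Finset.mem_biUnion] at hi ⊢
      obtain ⟨k, hk, hi⟩ := hi
      exact ⟨k, Finset.mem_range.2 (lt_of_lt_of_le (Finset.mem_range.1 hk) hab), hi⟩
    · intro i
      obtain ⟨N, hN⟩ := sub_UU h {i}
      exact ⟨N, hN (Finset.mem_singleton_self i)⟩
  have h3 : Tendsto (fun N => ∑ i ∈ UU h (n + N), if n ≤ sh i then z i ^ 2 else 0) atTop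
      (𝓝 (En sh z n)) := by
    have h4 : Tendsto (fun N : ℕ => n + N) atTop atTop :=
      tendsto_atTop_mono (fun N => Nat.le_add_left N n) tendsto_id
    exact (h1.comp h2).comp h4
  refine h3.congr fun N => ?_
  rw [sum_UU, Finset.sum_range_add]
  have e1 : ∑ x ∈ Finset.range n, ∑ i ∈ SS h x, (if n ≤ sh i then z i ^ 2 else 0) = 0 := by
    refine Finset.sum_eq_zero fun x hx => Finset.sum_eq_zero fun i hi => ?_
    rw [mem_SS] at hi
    rw [Finset.mem_range] at hx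
    rw [if_neg (by omega)]
  rw [e1, zero_add]
  refine Finset.sum_congr rfl fun x _ => ?_
  unfold sg
  refine Finset.sum_congr rfl fun i hi => ?_
  rw [mem_SS] at hi
  rw [if_pos (by omega)]

lemma En_succ (h : Shl sh ty m) {z : I → ℝ} (hz : Summable fun i => z i ^ 2) (n : ℕ) :
    En sh z n = sg h n z + En sh z (n + 1) := by
  have h1 := En_hasSum h hz n
  have h2 := En_hasSum h hz (n + 1)
  have h3 := h1.tsum_eq
  rw [h1.summable.tsum_eq_zero_add, add_zero] at h3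
  rw [← h3, ← h2.tsum_eq]
  congr 1
  refine tsum_congr fun j => ?_
  rw [show n + (j + 1) = n + 1 + j by ring]

lemma En_nonneg (z : I → ℝ) (n : ℕ) : 0 ≤ En sh z n :=
  tsum_nonneg fun i => by
    split_ifs
    · exact sq_nonneg _
    · exact le_rfl

lemma sg_le_En (h : Shl sh ty m) {z : I → ℝ} (hz : Summable fun i => z i ^ 2) (n : ℕ) :
    sg h n z ≤ En sh z n := by
  rw [En_succ h hz n]
  have := En_nonneg (sh := sh) z (n + 1)
  linarith

lemma En_nk {lam : ℝ} (hlam : 1 < lam) {z : I → ℝ} (hz : Sk (fun i => lam ^ sh i) 1 z) (n : ℕ) :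
    (lam ^ n) ^ 2 * En sh z n ≤ nk (fun i => lam ^ sh i) 1 z := by
  have hz2 := Sk_l2 hlam hz
  unfold En nk
  rw [← tsum_mul_left]
  refine ((En_summ hz2 n).mul_left _).tsum_le_tsum (fun i => ?_) hz
  rw [pow_one, mul_pow]
  split_ifs with hn
  · refine mul_le_mul_of_nonneg_right ?_ (sq_nonneg _)
    exact pow_le_pow_left₀ (by positivity) (pow_le_pow_right₀ hlam.le hn) 2
  · rw [mul_zero]; positivity

/-! ### Derivatives -/

lemma deriv_am (h : Shl sh ty m) {di : I → ℝ} {lam ε c₀ T : ℝ} {z : I → ℝ → ℝ}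
    (hs : ASol2 di (fun i => lam ^ sh i) (ker sh ty m lam ε c₀) T z) (b : Bool) (n : ℕ) (t : ℝ)
    (ht : t ∈ Ico 0 T) :
    HasDerivWithinAt (fun τ => am sh ty m b n (fun i => z i τ))
      (bb sh ty m lam ε c₀ b n (fun i => z i t) (fun i => z i t) +
        -am sh ty m b n (fun i => di i * z i t)) (Ico 0 T) t := by
  have e1 : (fun τ => am sh ty m b n (fun i => z i τ)) =
      fun τ => (√(m n : ℝ))⁻¹ * ∑ i ∈ SF h b n, z i τ := by
    funext τ; rw [am_eq h]
  rw [e1]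
  have h1 : HasDerivWithinAt (fun τ => ∑ i ∈ SF h b n, z i τ)
      (∑ i ∈ SF h b n, (-(di i * z i t) +
        bl (ker sh ty m lam ε c₀) (fun a => z a t) (fun a => z a t) i)) (Ico 0 T) t :=
    HasDerivWithinAt.fun_sum fun i _ => hs.deriv i t ht
  have h2 := h1.const_mul ((√(m n : ℝ))⁻¹)
  refine h2.congr_deriv ?_
  rw [Finset.sum_add_distrib, Finset.sum_neg_distrib]
  have e2 : ∑ i ∈ SF h b n, bl (ker sh ty m lam ε c₀) (fun a => z a t) (fun a => z a t) i =
      m n * ((√(m n : ℝ))⁻¹ * bb sh ty m lam ε c₀ b n (fun a => z a t) (fun a => z a t)) := by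
    rw [← card_SF h b n, ← nsmul_eq_mul, ← Finset.sum_const]
    refine Finset.sum_congr rfl fun i hi => ?_
    rw [mem_SF] at hi
    rw [bl_ker h, hi.1, hi.2]
    rw [card_SF]
  rw [e2, am_eq h b n (fun i => di i * z i t)]
  have h3 := inv_sqm h n
  calc (√(m n : ℝ))⁻¹ * (-∑ i ∈ SF h b n, di i * z i t + m n * ((√(m n : ℝ))⁻¹ *
        bb sh ty m lam ε c₀ b n (fun a => z a t) (fun a => z a t)))
      = ((√(m n : ℝ))⁻¹ ^ 2 * m n) * bb sh ty m lam ε c₀ b n (fun a => z a t) (fun a => z a t) +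
        -((√(m n : ℝ))⁻¹ * ∑ i ∈ SF h b n, di i * z i t) := by ring
    _ = _ := by rw [h3, one_mul]

lemma damp_le (h : Shl sh ty m) {di : I → ℝ} {d : ℕ → ℝ}
    (hd : ∀ i, 0 ≤ di i ∧ di i ≤ d (sh i)) {z : I → ℝ} (hz : Summable fun i => z i ^ 2)
    (b : Bool) (n : ℕ) :
    |-am sh ty m b n (fun i => di i * z i)| ≤ d n * √(En sh z n) := by
  have hd0 : 0 ≤ d n := by
    have h1 : (SF h true n).Nonempty := by
      rw [← Finset.card_pos, card_SF]
      exact h.pos n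
    obtain ⟨i, hi⟩ := h1
    rw [mem_SF] at hi
    rw [← hi.1]
    exact (hd i).1.trans (hd i).2
  rw [abs_neg]
  have h1 : |am sh ty m b n (fun i => di i * z i)| ≤ √(d n ^ 2 * En sh z n) := by
    apply Real.abs_le_sqrt
    refine (am_sq h b n _).trans ?_
    have h2 : ∑ i ∈ SF h b n, (di i * z i) ^ 2 ≤ ∑ i ∈ SS h n, (di i * z i) ^ 2 := by
      refine Finset.sum_le_sum_of_subset_of_nonneg ?_ fun i _ _ => sq_nonneg _
      intro i hi
      rw [mem_SF] at hi
      rw [mem_SS]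
      exact hi.1
    have h3 : ∑ i ∈ SS h n, (di i * z i) ^ 2 ≤ d n ^ 2 * sg h n z := by
      unfold sg
      rw [Finset.mul_sum]
      refine Finset.sum_le_sum fun i hi => ?_
      rw [mem_SS] at hi
      rw [mul_pow]
      refine mul_le_mul_of_nonneg_right ?_ (sq_nonneg _)
      refine pow_le_pow_left₀ (hd i).1 ?_ 2
      rw [← hi]
      exact (hd i).2
    refine h2.trans (h3.trans ?_)
    exact mul_le_mul_of_nonneg_left (sg_le_En h hz n) (sq_nonneg _)
  rwa [Real.sqrt_mul (sq_nonneg _), Real.sqrt_sq hd0] at h1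

/-- the feed of the shell `n`, times `y n` -/
noncomputable def FY (sh : I → ℕ) (ty : I → Bool) (m : ℕ → ℕ) (lam c₀ : ℝ) (z : I → ℝ) (n : ℕ) :
    ℝ := (if n = 0 then 0 else c₀ * lam ^ (n - 1) *
      (am sh ty m false (n - 1) z * am sh ty m false (n - 1) z)) * am sh ty m true n z

/-- the dissipation in the shell `n` -/
noncomputable def DD (h : Shl sh ty m) (di : I → ℝ) (z : I → ℝ) (n : ℕ) : ℝ :=
  ∑ i ∈ SS h n, di i * z i ^ 2

lemma energy_alg (lam ε c₀ : ℝ) (z : I → ℝ) (n : ℕ) :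
    am sh ty m true n z * bb sh ty m lam ε c₀ true n z z +
      am sh ty m false n z * bb sh ty m lam ε c₀ false n z z =
      FY sh ty m lam c₀ z n - FY sh ty m lam c₀ z (n + 1) := by
  unfold bb FY
  simp only [Bool.false_eq_true, if_false, if_true, Nat.add_eq_zero_iff, one_ne_zero, and_false,
    Nat.add_sub_cancel]
  ring

lemma deriv_sg (h : Shl sh ty m) {di : I → ℝ} {lam ε c₀ T : ℝ} {z : I → ℝ → ℝ}
    (hs : ASol2 di (fun i => lam ^ sh i) (ker sh ty m lam ε c₀) T z) (n : ℕ) (t : ℝ)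
    (ht : t ∈ Ico 0 T) :
    HasDerivWithinAt (fun τ => sg h n (fun i => z i τ))
      (-(2 * DD h di (fun i => z i t) n) + 2 * (FY sh ty m lam c₀ (fun i => z i t) n -
        FY sh ty m lam c₀ (fun i => z i t) (n + 1))) (Ico 0 T) t := by
  unfold sg
  have h1 : HasDerivWithinAt (fun τ => ∑ i ∈ SS h n, z i τ ^ 2)
      (∑ i ∈ SS h n, (2 * z i t * (-(di i * z i t) +
        bl (ker sh ty m lam ε c₀) (fun a => z a t) (fun a => z a t) i))) (Ico 0 T) t := by
    refine HasDerivWithinAt.fun_sum fun i _ => ?_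
    have h2 := (hs.deriv i t ht).fun_pow 2
    refine h2.congr_deriv ?_
    norm_num
  refine h1.congr_deriv ?_
  rw [← energy_alg (ε := ε)]
  have e1 : ∀ b, ∑ i ∈ SF h b n, 2 * z i t *
      (√(m n : ℝ))⁻¹ * bb sh ty m lam ε c₀ b n (fun a => z a t) (fun a => z a t) =
      2 * (am sh ty m b n (fun i => z i t) *
        bb sh ty m lam ε c₀ b n (fun a => z a t) (fun a => z a t)) := by
    intro b
    rw [am_eq h, ← Finset.sum_mul, ← Finset.sum_mul, ← Finset.mul_sum]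
    ring
  have e2 : ∀ i ∈ SS h n, 2 * z i t * (-(di i * z i t) +
        bl (ker sh ty m lam ε c₀) (fun a => z a t) (fun a => z a t) i) =
      -(2 * (di i * z i t ^ 2)) + 2 * z i t *
        (√(m n : ℝ))⁻¹ * bb sh ty m lam ε c₀ (ty i) n (fun a => z a t) (fun a => z a t) := by
    intro i hi
    rw [mem_SS] at hi
    rw [bl_ker h, hi]
    ring
  rw [Finset.sum_congr rfl e2, Finset.sum_add_distrib, Finset.sum_neg_distrib, ← Finset.mul_sum,
    sum_SS h n (fun i => 2 * z i t * (√(m n : ℝ))⁻¹ *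
      bb sh ty m lam ε c₀ (ty i) n (fun a => z a t) (fun a => z a t))]
  have e3 : ∀ b, ∑ i ∈ SF h b n, 2 * z i t * (√(m n : ℝ))⁻¹ *
      bb sh ty m lam ε c₀ (ty i) n (fun a => z a t) (fun a => z a t) =
      2 * (am sh ty m b n (fun i => z i t) *
        bb sh ty m lam ε c₀ b n (fun a => z a t) (fun a => z a t)) := by
    intro b
    rw [← e1 b]
    refine Finset.sum_congr rfl fun i hi => ?_
    rw [mem_SF] at hi
    rw [hi.2]
  rw [e3, e3]
  unfold DD
  ring

/-! ### Bounds, locally uniformly in time -/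

lemma sg_bd (h : Shl sh ty m) {lam : ℝ} (hlam : 1 < lam) {z : I → ℝ} {M : ℝ}
    (hz : Sk (fun i => lam ^ sh i) 1 z) (hM : nk (fun i => lam ^ sh i) 1 z ≤ M) (n : ℕ) :
    sg h n z ≤ M * ((lam⁻¹) ^ n) ^ 2 := by
  have h1 := (shell_le h hz n).trans hM
  rw [pow_one] at h1
  have hl : 0 < lam ^ n := pow_pos (by linarith) n
  rw [inv_pow, inv_pow, ← div_eq_mul_inv, le_div_iff₀ (by positivity)]
  linarith

lemma am_bd (h : Shl sh ty m) {lam : ℝ} (hlam : 1 < lam) {z : I → ℝ} {M : ℝ} (hM1 : 1 ≤ M)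
    (hz : Sk (fun i => lam ^ sh i) 1 z) (hM : nk (fun i => lam ^ sh i) 1 z ≤ M) (b : Bool)
    (n : ℕ) : |am sh ty m b n z| ≤ M * (lam⁻¹) ^ n := by
  refine (am_le h b n z).trans ?_
  have hq : 0 ≤ (lam⁻¹) ^ n := by positivity
  rw [← Real.sqrt_sq (mul_nonneg (by linarith : (0:ℝ) ≤ M) hq)]
  refine Real.sqrt_le_sqrt ((sg_bd h hlam hz hM n).trans ?_)
  rw [mul_pow]
  refine mul_le_mul_of_nonneg_right ?_ (sq_nonneg _)
  nlinarith

lemma FY_bd (h : Shl sh ty m) {lam c₀ : ℝ} (hlam : 1 < lam) (hc : 0 < c₀) {z : I → ℝ} {M : ℝ}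
    (hM1 : 1 ≤ M) (hz : Sk (fun i => lam ^ sh i) 1 z) (hM : nk (fun i => lam ^ sh i) 1 z ≤ M)
    (n : ℕ) : |FY sh ty m lam c₀ z n| ≤ c₀ * M ^ 3 * (lam⁻¹) ^ n := by
  have hM0 : 0 ≤ M := by linarith
  have hq0 : 0 < lam⁻¹ := inv_pos.2 (by linarith)
  have hq1 : lam⁻¹ ≤ 1 := inv_le_one_of_one_le₀ hlam.le
  have hln : ∀ k, lam ^ k * (lam⁻¹) ^ k = 1 := by
    intro k
    rw [← mul_pow, mul_inv_cancel₀ (by linarith), one_pow]
  cases n with
  | zero =>
    unfold FY
    rw [if_pos rfl, zero_mul, abs_zero]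
    positivity
  | succ k =>
    have h1 := am_bd h hlam hM1 hz hM false k
    have h2 := am_bd h hlam hM1 hz hM true (k + 1)
    have hl : 0 < lam ^ k := pow_pos (by linarith) k
    unfold FY
    rw [if_neg (Nat.succ_ne_zero k), Nat.add_sub_cancel, abs_mul, abs_mul,
      abs_of_pos (mul_pos hc hl), abs_mul]
    have hk0 : 0 ≤ (lam⁻¹) ^ k := by positivity
    have hk1 : (lam⁻¹) ^ k ≤ 1 := pow_le_one₀ hq0.le hq1
    calc c₀ * lam ^ k * (|am sh ty m false k z| * |am sh ty m false k z|) *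
          |am sh ty m true (k + 1) z|
        ≤ c₀ * lam ^ k * ((M * (lam⁻¹) ^ k) * (M * (lam⁻¹) ^ k)) * (M * (lam⁻¹) ^ (k + 1)) := by
          gcongr
      _ = c₀ * M ^ 3 * (lam ^ k * (lam⁻¹) ^ k) * (lam⁻¹) ^ k * (lam⁻¹) ^ (k + 1) := by ring
      _ = c₀ * M ^ 3 * ((lam⁻¹) ^ k * (lam⁻¹) ^ (k + 1)) := by rw [hln]; ring
      _ ≤ c₀ * M ^ 3 * (1 * (lam⁻¹) ^ (k + 1)) := by gcongr
      _ = _ := by rw [one_mul]

lemma DD_nonneg (h : Shl sh ty m) {di : I → ℝ} (hd : ∀ i, 0 ≤ di i) (z : I → ℝ) (n : ℕ) :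
    0 ≤ DD h di z n := Finset.sum_nonneg fun i _ => mul_nonneg (hd i) (sq_nonneg _)

lemma DD_bd (h : Shl sh ty m) {di : I → ℝ} {d : ℕ → ℝ}
    (hd : ∀ i, 0 ≤ di i ∧ di i ≤ d (sh i)) {lam c₀ : ℝ} (hlam : 1 < lam) (hc : 0 < c₀)
    (hdc : ∀ n, d n ≤ c₀ * lam ^ n) {z : I → ℝ} {M : ℝ}
    (hM1 : 1 ≤ M) (hz : Sk (fun i => lam ^ sh i) 1 z) (hM : nk (fun i => lam ^ sh i) 1 z ≤ M)
    (n : ℕ) : DD h di z n ≤ c₀ * M ^ 3 * (lam⁻¹) ^ n := by
  have hM0 : 0 ≤ M := by linarith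
  have hl : 0 < lam ^ n := pow_pos (by linarith) n
  have hln : lam ^ n * (lam⁻¹) ^ n = 1 := by
    rw [← mul_pow, mul_inv_cancel₀ (by linarith), one_pow]
  have h1 : DD h di z n ≤ c₀ * lam ^ n * sg h n z := by
    unfold DD sg
    rw [Finset.mul_sum]
    refine Finset.sum_le_sum fun i hi => mul_le_mul_of_nonneg_right ?_ (sq_nonneg _)
    rw [mem_SS] at hi
    rw [← hi]
    exact (hd i).2.trans (hdc _)
  have h2 := sg_bd h hlam hz hM n
  have hq : 0 ≤ (lam⁻¹) ^ n := by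
    have : 0 < lam⁻¹ := inv_pos.2 (by linarith)
    positivity
  calc DD h di z n ≤ c₀ * lam ^ n * (M * ((lam⁻¹) ^ n) ^ 2) :=
        h1.trans (mul_le_mul_of_nonneg_left h2 (mul_pos hc hl).le)
    _ = c₀ * M * (lam ^ n * (lam⁻¹) ^ n) * (lam⁻¹) ^ n := by ring
    _ = c₀ * M * (lam⁻¹) ^ n := by rw [hln, mul_one]
    _ ≤ c₀ * M ^ 3 * (lam⁻¹) ^ n := by
        refine mul_le_mul_of_nonneg_right (mul_le_mul_of_nonneg_left ?_ hc.le) hq
        nlinarith [mul_nonneg hM0 hM0, mul_nonneg (mul_nonneg hM0 hM0) hM0]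

theorem deriv_En (h : Shl sh ty m) {di : I → ℝ} {d : ℕ → ℝ}
    (hd : ∀ i, 0 ≤ di i ∧ di i ≤ d (sh i)) {lam ε c₀ T : ℝ} (hlam : 1 < lam) (hc : 0 < c₀)
    (hdc : ∀ n, d n ≤ c₀ * lam ^ n) {z : I → ℝ → ℝ}
    (hs : ASol2 di (fun i => lam ^ sh i) (ker sh ty m lam ε c₀) T z) (n : ℕ) (t : ℝ)
    (ht : t ∈ Ico 0 T) :
    ∃ D, HasDerivWithinAt (fun τ => En sh (fun i => z i τ) n) D (Ico 0 T) t ∧
      D ≤ 2 * FY sh ty m lam c₀ (fun i => z i t) n := by
  have hd0 : ∀ i, 0 ≤ di i := fun i => (hd i).1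
  set T' := (t + T) / 2 with hT'
  have htT : t < T' := by rw [hT']; linarith [ht.2]
  have hTT : T' < T := by rw [hT']; linarith [ht.2]
  have ht' : t ∈ Icc 0 T' := ⟨ht.1, htT.le⟩
  obtain ⟨M₀, hM₀⟩ := hs.bdd T' hTT
  set M := max 1 M₀ with hMdef
  have hM1 : 1 ≤ M := le_max_left _ _
  have hM : ∀ s ∈ Icc 0 T', nk (fun i => lam ^ sh i) 1 (fun a => z a s) ≤ M :=
    fun s hs' => (hM₀ s hs').2.trans (le_max_right _ _)
  have hS : ∀ s ∈ Icc 0 T', Sk (fun i => lam ^ sh i) 1 (fun a => z a s) :=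
    fun s hs' => (hM₀ s hs').1
  have hsub : Icc 0 T' ⊆ Ico 0 T := fun s hs' => ⟨hs'.1, lt_of_le_of_lt hs'.2 hTT⟩
  have hq0 : 0 < lam⁻¹ := inv_pos.2 (by linarith)
  have hq1 : lam⁻¹ < 1 := inv_lt_one_of_one_lt₀ hlam
  set g : ℕ → ℝ → ℝ := fun j s => -(2 * DD h di (fun i => z i s) (n + j)) +
    2 * (FY sh ty m lam c₀ (fun i => z i s) (n + j) -
      FY sh ty m lam c₀ (fun i => z i s) (n + j + 1)) with hg
  set u : ℕ → ℝ := fun j => 6 * (c₀ * M ^ 3) * (lam⁻¹) ^ j with hu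
  have husum : Summable u := (summable_geometric_of_lt_one hq0.le hq1).mul_left _
  have hgb : ∀ j, ∀ s ∈ Icc 0 T', ‖g j s‖ ≤ u j := by
    intro j s hs'
    have h1 := DD_bd h hd hlam hc hdc hM1 (hS s hs') (hM s hs') (n + j)
    have h1' := DD_nonneg h hd0 (fun i => z i s) (n + j)
    have h2 := FY_bd h hlam hc hM1 (hS s hs') (hM s hs') (n + j)
    have h3 := FY_bd h hlam hc hM1 (hS s hs') (hM s hs') (n + j + 1)
    have hC : 0 ≤ c₀ * M ^ 3 := by positivity
    have h4 : (lam⁻¹) ^ (n + j) ≤ (lam⁻¹) ^ j := pow_le_pow_of_le_one hq0.le hq1.le (by omega)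
    have h5 : (lam⁻¹) ^ (n + j + 1) ≤ (lam⁻¹) ^ j :=
      pow_le_pow_of_le_one hq0.le hq1.le (by omega)
    have h4' := mul_le_mul_of_nonneg_left h4 hC
    have h5' := mul_le_mul_of_nonneg_left h5 hC
    rw [Real.norm_eq_abs, abs_le]
    rw [abs_le] at h2 h3
    simp only [hg, hu]
    constructor <;> nlinarith
  have hser : HasDerivWithinAt (fun s => ∑' j, sg h (n + j) (fun i => z i s))
      (∑' j, g j t) (Icc 0 T') t := by
    refine hasDerivWithinAt_series ht' husum (fun j s hs' => ?_) hgb (fun s hs' => ?_)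
    · exact (deriv_sg h hs (n + j) s (hsub hs')).mono hsub
    · exact (En_hasSum h (Sk_l2 hlam (hS s hs')) n).summable
  have hEn : ∀ s ∈ Icc 0 T', En sh (fun i => z i s) n = ∑' j, sg h (n + j) (fun i => z i s) :=
    fun s hs' => (En_hasSum h (Sk_l2 hlam (hS s hs')) n).tsum_eq.symm
  have hser2 : HasDerivWithinAt (fun s => En sh (fun i => z i s) n) (∑' j, g j t) (Icc 0 T') t :=
    hser.congr hEn (hEn t ht')
  refine ⟨∑' j, g j t, hser2.mono_of_mem_nhdsWithin ?_, ?_⟩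
  · rw [mem_nhdsWithin]
    exact ⟨Iio T', isOpen_Iio, htT, fun s hs' => ⟨hs'.2.1, le_of_lt hs'.1⟩⟩
  · have hgs : Summable (fun j => g j t) :=
      Summable.of_norm_bounded husum fun j => hgb j t ht'
    have h1 := hgs.hasSum.tendsto_sum_nat
    have h2 : ∀ N, ∑ j ∈ Finset.range N, g j t ≤ 2 * FY sh ty m lam c₀ (fun i => z i t) n -
        2 * FY sh ty m lam c₀ (fun i => z i t) (n + N) := by
      intro N
      induction N with
      | zero => simp
      | succ N ih =>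
        rw [Finset.sum_range_succ]
        have h3 := DD_nonneg h hd0 (fun i => z i t) (n + N)
        simp only [hg] at ih ⊢
        rw [show n + (N + 1) = n + N + 1 by ring]
        linarith
    have h3 : Tendsto (fun N => 2 * FY sh ty m lam c₀ (fun i => z i t) n -
        2 * FY sh ty m lam c₀ (fun i => z i t) (n + N)) atTop
        (𝓝 (2 * FY sh ty m lam c₀ (fun i => z i t) n - 2 * 0)) := by
      refine tendsto_const_nhds.sub (Tendsto.const_mul 2 ?_)
      have h4 : Tendsto (fun N : ℕ => c₀ * M ^ 3 * (lam⁻¹) ^ N) atTop (𝓝 0) := by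
        have := (tendsto_pow_atTop_nhds_zero_of_lt_one hq0.le hq1).const_mul (c₀ * M ^ 3)
        rwa [mul_zero] at this
      have h5 : Tendsto (fun N : ℕ => FY sh ty m lam c₀ (fun i => z i t) N) atTop (𝓝 0) :=
        squeeze_zero_norm (fun N => FY_bd h hlam hc hM1 (hS t ht') (hM t ht') N) h4
      exact h5.comp (tendsto_atTop_mono (fun N => Nat.le_add_left N n) tendsto_id)
    rw [mul_zero, sub_zero] at h3
    exact le_of_tendsto_of_tendsto' h1 h3 h2

theorem red (h : Shl sh ty m) {di : I → ℝ} {d : ℕ → ℝ}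
    (hd : ∀ i, 0 ≤ di i ∧ di i ≤ d (sh i)) {lam ε c₀ T : ℝ} (hlam : 1 < lam) (hc : 0 < c₀)
    (hdc : ∀ n, d n ≤ c₀ * lam ^ n) {z : I → ℝ → ℝ}
    (hs : ASol2 di (fun i => lam ^ sh i) (ker sh ty m lam ε c₀) T z)
    (h0 : ∀ i, z i 0 = fv sh ty m true 0 i) :
    Red lam ε c₀ d T (fun n t => am sh ty m true n (fun i => z i t))
      (fun n t => am sh ty m false n (fun i => z i t))
      (fun n t => En sh (fun i => z i t) n) := by
  have hsum : ∀ t ∈ Ico 0 T, Summable fun i => z i t ^ 2 := by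
    intro t ht
    obtain ⟨M, hM⟩ := hs.bdd t ht.2
    exact Sk_l2 hlam (hM t ⟨ht.1, le_rfl⟩).1
  have hfd : ∀ n t, fd c₀ lam (fun n t => am sh ty m false n (fun i => z i t)) n t =
      if n = 0 then 0 else c₀ * lam ^ (n - 1) * (am sh ty m false (n - 1) (fun i => z i t) *
        am sh ty m false (n - 1) (fun i => z i t)) := by
    intro n t
    cases n with
    | zero => rfl
    | succ n =>
      rw [if_neg (Nat.succ_ne_zero n), Nat.add_sub_cancel, ← sq]
      rfl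
  refine ⟨?_, ?_, ?_, ?_, ?_, ?_, ?_, ?_⟩
  · intro n t ht
    refine ⟨-am sh ty m true n (fun i => di i * z i t), damp_le h hd (hsum t ht) true n, ?_⟩
    refine (deriv_am h hs true n t ht).congr_deriv ?_
    rw [hfd]
    unfold bb
    simp only [if_true]
    ring
  · intro n t ht
    refine ⟨-am sh ty m false n (fun i => di i * z i t), damp_le h hd (hsum t ht) false n, ?_⟩
    refine (deriv_am h hs false n t ht).congr_deriv ?_
    unfold bb
    simp only [Bool.false_eq_true, if_false]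
    ring
  · intro n t ht
    obtain ⟨D, hD, hD2⟩ := deriv_En h hd hlam hc hdc hs n t ht
    refine ⟨D, hD, hD2.trans (le_of_eq ?_)⟩
    rw [hfd]
    unfold FY
    ring
  · intro n t ht
    have h1 := am_sq2 h n (fun i => z i t)
    have h2 := En_succ h (hsum t ht) n
    linarith
  · intro n t _
    exact En_nonneg _ n
  · show am sh ty m true 0 (fun i => z i 0) = 1
    have e : (fun i => z i 0) = fv sh ty m true 0 := funext h0
    rw [e, am_eq h]
    have e2 : ∑ i ∈ SF h true 0, fv sh ty m true 0 i = m 0 * (√(m 0 : ℝ))⁻¹ := by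
      rw [← card_SF h true 0, ← nsmul_eq_mul, ← Finset.sum_const]
      refine Finset.sum_congr rfl fun i hi => ?_
      rw [fv_mem h true 0 i hi, card_SF]
    rw [e2]
    have := inv_sqm h 0
    linarith
  · show En sh (fun i => z i 0) 0 = 1
    have e : (fun i => z i 0) = fv sh ty m true 0 := funext h0
    rw [e]
    unfold En
    have e2 : (∑' i, if 0 ≤ sh i then fv sh ty m true 0 i ^ 2 else 0) =
        ∑ i ∈ SF h true 0, (√(m 0 : ℝ))⁻¹ ^ 2 := by
      rw [tsum_eq_sum (s := SF h true 0)]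
      · refine Finset.sum_congr rfl fun i hi => ?_
        rw [if_pos (Nat.zero_le _), fv_mem h true 0 i hi]
      · intro i hi
        rw [if_pos (Nat.zero_le _), fv_zero h true 0 i hi]
        norm_num
    rw [e2, Finset.sum_const, card_SF, nsmul_eq_mul]
    have := inv_sqm h 0
    linarith
  · intro T' hT'
    obtain ⟨M, hM⟩ := hs.bdd T' hT'
    refine ⟨√M, fun t ht n => ?_⟩
    have h1 := (En_nk hlam (hM t ht).1 n).trans (hM t ht).2
    have hl : 0 ≤ lam ^ n := by positivity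
    calc lam ^ n * √(En sh (fun i => z i t) n) = √((lam ^ n) ^ 2 * En sh (fun i => z i t) n) := by
          rw [Real.sqrt_mul (sq_nonneg _), Real.sqrt_sq hl]
      _ ≤ √M := Real.sqrt_le_sqrt h1

end

theorem t_RED : S_RED := by
  intro I sh ty m di d lam ε c₀ h hd hlam hc _ _ hdc T z _ hs _ h0
  exact red h hd hlam hc hdc hs h0

end Pool.Agent.K1H21.LO
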